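import Pool.Agent.H66.TK.Lin

/-! # Project TK, part MOV: rational points accumulate at the points without torsion -/

set_option autoImplicit false
set_option linter.unusedSimpArgs false
set_option linter.unusedSectionVars false

open Pool.Agent.Y720.MZ Pool.Agent.Q35.TT Pool.Agent.Q190.TT Pool.Agent.Q149.TT Filter Topology

namespace Pool.Agent.H66.TK

section alg
variable {K : Type} [Field K]

/-- the third points on the lines through `(w, t)` -/
theorem cub_line (α : Fin 3 → K) (β : Fin 4 → K) (w t ρ z : K) :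
    cub α β (w + z * ρ) ![1, t + z] = cub α β w ![1, t] + z * ((cw α w ![1, t] * ρ + c1 α β w ![1, t]) +
      z * mm α β w ![1, t] ρ 1 + z ^ 2 * nn α β ρ 1) := by
  rw [cub, cub, q2v, q3v, q2v, q3v, cwv, c1v, mmv, nn]
  ring

theorem bq_gq' (α : Fin 3 → K) (β : Fin 4 → K) (w t ρ : K) :
    bq (gq α β w ![1, t]) ![1, ρ] = mm α β w ![1, t] ρ 1 ^ 2 -
      4 * (cw α w ![1, t] * ρ + c1 α β w ![1, t]) * nn α β ρ 1 := by
  rw [Pool.Agent.Q224.TT.Loc.bq1, gq0, gq1, gq2, gq3, gq4, mmv, nn]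
  obtain ⟨l, hl⟩ : ∃ l, l = cw α w ![1, t] := ⟨_, rfl⟩
  obtain ⟨c, hc⟩ : ∃ l, l = c1 α β w ![1, t] := ⟨_, rfl⟩
  rw [← hl, ← hc]
  ring

theorem cub_root (α : Fin 3 → K) (β : Fin 4 → K) (w t ρ Y : K) (h0 : cub α β w ![1, t] = 0)
    (hY : Y ^ 2 = bq (gq α β w ![1, t]) ![1, ρ]) (hne : mm α β w ![1, t] ρ 1 + Y ≠ 0) :
    cub α β (w + -2 * (cw α w ![1, t] * ρ + c1 α β w ![1, t]) / (mm α β w ![1, t] ρ 1 + Y) * ρ)
      ![1, t + -2 * (cw α w ![1, t] * ρ + c1 α β w ![1, t]) / (mm α β w ![1, t] ρ 1 + Y)] = 0 := by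
  rw [cub_line, h0, zero_add]
  rw [bq_gq'] at hY
  obtain ⟨l, hl⟩ : ∃ l, l = cw α w ![1, t] * ρ + c1 α β w ![1, t] := ⟨_, rfl⟩
  obtain ⟨m, hm⟩ : ∃ l, l = mm α β w ![1, t] ρ 1 := ⟨_, rfl⟩
  obtain ⟨n, hn⟩ : ∃ l, l = nn α β ρ 1 := ⟨_, rfl⟩
  rw [← hl, ← hm, ← hn] at hY
  rw [← hm] at hne
  rw [← hl, ← hm, ← hn]
  have : l + -2 * l / (m + Y) * m + (-2 * l / (m + Y)) ^ 2 * n = 0 := by
    field_simp
    linear_combination l * hY
  rw [this, mul_zero]

theorem cub_fin (α : Fin 3 → K) (β : Fin 4 → K) (t : K) : {w : K | cub α β w ![1, t] = 0}.Finite := by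
  classical
  set P : Polynomial K := Polynomial.X ^ 3 + Polynomial.C (q2 α ![1, t]) * Polynomial.X +
    Polynomial.C (q3 β ![1, t]) with hP
  have hdeg : P.natDegree = 3 := by
    rw [hP]
    compute_degree!
  have hP0 : P ≠ 0 := by
    intro h
    rw [h, Polynomial.natDegree_zero] at hdeg
    omega
  refine (P.roots.toFinset.finite_toSet).subset fun w hw => ?_
  rw [Finset.mem_coe, Multiset.mem_toFinset, Polynomial.mem_roots hP0, Polynomial.IsRoot, hP]
  simp only [Polynomial.eval_add, Polynomial.eval_pow, Polynomial.eval_X, Polynomial.eval_mul,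
    Polynomial.eval_C]
  exact hw

end alg

theorem mov : S_MOV := by
  intro K _ _ L _ _ σ hσ α β w t h0 hcw hT ε hε
  have : ProperSpace L := Pool.Agent.W279.Tri.properSpace_of_denseRange σ hσ
  have : CharZero L := charZero_of_injective_ringHom σ.injective
  obtain ⟨s, hs⟩ : ∃ s, s = -(c1 α β w ![1, t]) / cw α w ![1, t] := ⟨_, rfl⟩
  have hs' : cw α w ![1, t] * s + c1 α β w ![1, t] = 0 := by
    rw [hs]
    field_simp
    ring
  obtain ⟨m₀, hm₀⟩ : ∃ m, m = mm α β w ![1, t] s 1 := ⟨_, rfl⟩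
  have hDD : DD α β w ![1, t] ≠ 0 := fun h => hT ⟨1, one_ne_zero, Or.inl h⟩
  have hm0 : m₀ ≠ 0 := by
    intro h
    apply hDD
    rw [DD_eq α β w t s hs', ← hm₀, h, mul_zero]
  have hF : m₀ ^ 2 = bq (gq α β w ![1, t]) ![1, s] := by
    rw [bq_gq α β w t s hs', hm₀]
  -- many points on the quartic curve
  have hinf : ∀ δ : ℝ, 0 < δ → {τ : K | ‖σ τ‖ < δ ∧ ∃ Y : K, ‖σ (Y - m₀)‖ < δ ∧
      Y ^ 2 = bq (gq α β w ![1, t]) ![1, s + τ]}.Infinite := by
    intro δ hδ
    by_cases hd : dF (gq α β w ![1, t]) = 0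
    · apply infinite_small σ
      intro δ' hδ'
      obtain ⟨s', w', k1, k2, k3, k4⟩ := Pool.Agent.Q192.TT.acc K L σ hσ (gq α β w ![1, t]) s m₀ hm0
        hF hd (min δ' δ) (lt_min hδ' hδ)
      refine ⟨s' - s, sub_ne_zero.2 k1, ?_, ?_, w', ?_, ?_⟩
      · rw [map_sub]
        exact k2.trans_le (min_le_left _ _)
      · rw [map_sub]
        exact k2.trans_le (min_le_right _ _)
      · rw [map_sub]
        exact k3.trans_le (min_le_right _ _)
      · rw [add_sub_cancel]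
        exact k4
    · refine move_inf σ hm0 hF hd ?_ hδ
      rintro ⟨n, hn, hTor⟩
      refine hT ⟨n, hn, Or.inr ?_⟩
      rw [← hs]
      have h1 := tws2 K (gq α β w ![1, t]) 1 s m₀ n one_ne_zero
      simp only [one_mul] at h1
      exact (h1.1 hTor).2.2
  -- continuity
  obtain ⟨δ, hδ, hcont⟩ : ∃ δ : ℝ, 0 < δ ∧ ∀ τ Y : K, ‖σ τ‖ < δ → ‖σ (Y - m₀)‖ < δ →
      mm α β w ![1, t] (s + τ) 1 + Y ≠ 0 ∧
      ‖σ (-2 * (cw α w ![1, t] * (s + τ) + c1 α β w ![1, t]) /
        (mm α β w ![1, t] (s + τ) 1 + Y))‖ < ε ∧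
      ‖σ (-2 * (cw α w ![1, t] * (s + τ) + c1 α β w ![1, t]) /
        (mm α β w ![1, t] (s + τ) 1 + Y) * (s + τ))‖ < ε := by
    set den : L × L → L := fun p => σ (3 * w) * (σ s + p.1) ^ 2 +
      σ (α 1 + 2 * α 2 * t) * (σ s + p.1) + σ (α 2 * w + β 2 + 3 * β 3 * t) + p.2 with hden
    set num : L × L → L := fun p => -2 * (σ (cw α w ![1, t]) * p.1) with hnum
    have hden0 : den (0, σ m₀) = 2 * σ m₀ := by
      rw [hden]
      simp only [add_zero]
      rw [hm₀, mmv]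
      simp only [map_add, map_mul, map_pow, map_ofNat, map_one]
      ring
    have hdc : Continuous den := by
      rw [hden]
      fun_prop
    have hnc : Continuous num := by
      rw [hnum]
      fun_prop
    have hne : den (0, σ m₀) ≠ 0 := by
      rw [hden0]
      refine mul_ne_zero two_ne_zero ?_
      intro h
      exact hm0 ((map_eq_zero σ).1 h)
    have hq : ContinuousAt (fun p => num p / den p) (0, σ m₀) :=
      hnc.continuousAt.div hdc.continuousAt hne
    have hq0 : num (0, σ m₀) / den (0, σ m₀) = 0 := by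
      simp [hnum]
    have hr : ContinuousAt (fun p : L × L => num p / den p * (σ s + p.1)) (0, σ m₀) :=
      hq.mul (by fun_prop)
    have hr0 : num (0, σ m₀) / den (0, σ m₀) * (σ s + ((0 : L), σ m₀).1) = 0 := by
      simp [hnum]
    have e1 : ∀ᶠ p in 𝓝 ((0, σ m₀) : L × L), den p ≠ 0 := hdc.continuousAt.eventually_ne hne
    have e2 : ∀ᶠ p in 𝓝 ((0, σ m₀) : L × L), ‖num p / den p‖ < ε := by
      have := hq.tendsto
      rw [hq0] at this
      have h2 := this.eventually (Metric.ball_mem_nhds (0 : L) hε)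
      filter_upwards [h2] with p hp
      rwa [dist_zero_right] at hp
    have e3 : ∀ᶠ p in 𝓝 ((0, σ m₀) : L × L), ‖num p / den p * (σ s + p.1)‖ < ε := by
      have := hr.tendsto
      rw [hr0] at this
      have h2 := this.eventually (Metric.ball_mem_nhds (0 : L) hε)
      filter_upwards [h2] with p hp
      rwa [dist_zero_right] at hp
    obtain ⟨δ, hδ, hball⟩ := Metric.eventually_nhds_iff_ball.1 ((e1.and e2).and e3)
    refine ⟨δ, hδ, fun τ Y hτ hY => ?_⟩
    have hmem : ((σ τ, σ Y) : L × L) ∈ Metric.ball ((0, σ m₀) : L × L) δ := by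
      rw [Metric.mem_ball, Prod.dist_eq, max_lt_iff]
      constructor
      · simpa using hτ
      · rw [dist_eq_norm, ← map_sub]
        exact hY
    obtain ⟨⟨k1, k2⟩, k3⟩ := hball _ hmem
    have hD : σ (mm α β w ![1, t] (s + τ) 1 + Y) = den (σ τ, σ Y) := by
      rw [hden, mmv]
      simp only [map_add, map_mul, map_pow, map_ofNat, map_one]
      ring
    have hN : σ (-2 * (cw α w ![1, t] * (s + τ) + c1 α β w ![1, t])) = num (σ τ, σ Y) := by
      have : cw α w ![1, t] * (s + τ) + c1 α β w ![1, t] = cw α w ![1, t] * τ := by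
        linear_combination hs'
      rw [this, hnum]
      simp only [map_mul, map_neg, map_ofNat]
    refine ⟨?_, ?_, ?_⟩
    · intro h
      rw [h, map_zero] at hD
      exact k1 hD.symm
    · rw [map_div₀, hD, hN]
      exact k2
    · rw [map_mul, map_div₀, hD, hN, map_add]
      exact k3
  -- the points of the cubic
  intro hfin
  have hbig : (⋃ t' ∈ {t' : K | ‖σ t' - σ t‖ < ε ∧ ∃ w' : K, ‖σ w' - σ w‖ < ε ∧
      cub α β w' ![1, t'] = 0}, (fun w' => (w' - w) / (t' - t) - s) ''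
        {w' : K | cub α β w' ![1, t'] = 0}).Finite :=
    hfin.biUnion fun t' _ => (cub_fin α β t').image _
  have hinf2 := (hinf δ hδ).sdiff (hbig.union (Set.finite_singleton (0 : K)))
  obtain ⟨τ, ⟨h1, Y, h2, h3⟩, h4⟩ := hinf2.nonempty
  rw [Set.mem_union, not_or] at h4
  obtain ⟨h4, h5⟩ := h4
  have hτ : τ ≠ 0 := h5
  obtain ⟨k1, k2, k3⟩ := hcont τ Y h1 h2
  have hroot := cub_root α β w t (s + τ) Y h0 h3 k1
  obtain ⟨z, hz⟩ : ∃ z, z = -2 * (cw α w ![1, t] * (s + τ) + c1 α β w ![1, t]) /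
    (mm α β w ![1, t] (s + τ) 1 + Y) := ⟨_, rfl⟩
  rw [← hz] at k2 k3 hroot
  have hz0 : z ≠ 0 := by
    rw [hz]
    refine div_ne_zero (mul_ne_zero (by norm_num) ?_) k1
    have : cw α w ![1, t] * (s + τ) + c1 α β w ![1, t] = cw α w ![1, t] * τ := by
      linear_combination hs'
    rw [this]
    exact mul_ne_zero hcw hτ
  apply h4
  refine Set.mem_iUnion₂.2 ⟨t + z, ?_, w + z * (s + τ), hroot, ?_⟩
  · refine ⟨?_, w + z * (s + τ), ?_, hroot⟩
    · rw [← map_sub, add_sub_cancel_left]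
      exact k2
    · rw [← map_sub, add_sub_cancel_left]
      exact k3
  · show (w + z * (s + τ) - w) / (t + z - t) - s = τ
    rw [add_sub_cancel_left, add_sub_cancel_left, mul_div_cancel_left₀ _ hz0]
    ring

end Pool.Agent.H66.TK
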