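import Pool.Agent.H66.TK.Stm

/-! # Project TK: calculus of bounds `v x ≤ Θᵏ Xʲ` for all places at once -/

set_option autoImplicit false

open Height AdmissibleAbsValues

namespace Pool.Agent.H66.TK

/-- The absolute value satisfies `v (x + y) ≤ Θ max (v x) (v y)`. -/
structure Ult {K : Type} [Field K] (v : AbsoluteValue K ℝ) (Θ : ℝ) : Prop where
  one_le : 1 ≤ Θ
  add : ∀ x y, v (x + y) ≤ Θ * max (v x) (v y)

/-- `v x ≤ Θᵏ Xʲ` -/
def Bd {K : Type} [Field K] (v : AbsoluteValue K ℝ) (Θ X : ℝ) (k j : ℕ) (x : K) : Prop :=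
  v x ≤ Θ ^ k * X ^ j

section
variable {K : Type} [Field K] {v : AbsoluteValue K ℝ} {Θ X : ℝ}

theorem Ult.mono {Θ' : ℝ} (h : Ult v Θ) (h' : Θ ≤ Θ') : Ult v Θ' :=
  ⟨h.one_le.trans h', fun x y => (h.add x y).trans
    (mul_le_mul_of_nonneg_right h' ((v.nonneg x).trans (le_max_left _ _)))⟩

theorem ult_two (v : AbsoluteValue K ℝ) : Ult v 2 := by
  refine ⟨by norm_num, fun x y => (v.add_le x y).trans ?_⟩
  have h1 := le_max_left (v x) (v y)
  have h2 := le_max_right (v x) (v y)
  linarith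

theorem ult_na (hv : IsNonarchimedean v) : Ult v 1 :=
  ⟨le_rfl, fun x y => by rw [one_mul]; exact hv x y⟩

theorem Bd.mono {k j k' j' : ℕ} {x : K} (h : Bd v Θ X k j x) (hΘ : 1 ≤ Θ) (hX : 1 ≤ X)
    (hk : k ≤ k') (hj : j ≤ j') : Bd v Θ X k' j' x := by
  unfold Bd at *
  refine h.trans (mul_le_mul (pow_le_pow_right₀ hΘ hk) (pow_le_pow_right₀ hX hj) (by positivity)
    (by positivity))

theorem Bd.mul {k j k' j' : ℕ} {x y : K} (h : Bd v Θ X k j x) (h' : Bd v Θ X k' j' y)
    (hΘ : 1 ≤ Θ) (hX : 1 ≤ X) : Bd v Θ X (k + k') (j + j') (x * y) := by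
  unfold Bd at *
  rw [map_mul, pow_add, pow_add]
  calc v x * v y ≤ (Θ ^ k * X ^ j) * (Θ ^ k' * X ^ j') :=
        mul_le_mul h h' (v.nonneg _) (by positivity)
    _ = _ := by ring

theorem Bd.pow {k j : ℕ} {x : K} (h : Bd v Θ X k j x) (n : ℕ) : Bd v Θ X (k * n) (j * n) (x ^ n) := by
  unfold Bd at *
  rw [map_pow, pow_mul, pow_mul, ← mul_pow]
  exact pow_le_pow_left₀ (v.nonneg _) h n

theorem Bd.neg {k j : ℕ} {x : K} (h : Bd v Θ X k j x) : Bd v Θ X k j (-x) := by
  unfold Bd at *
  rw [v.map_neg]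
  exact h

theorem Bd.add' {k j : ℕ} {x y : K} (h : Bd v Θ X k j x) (h' : Bd v Θ X k j y) (hu : Ult v Θ) :
    Bd v Θ X (k + 1) j (x + y) := by
  unfold Bd at *
  refine (hu.add x y).trans ?_
  rw [pow_succ', mul_assoc]
  exact mul_le_mul_of_nonneg_left (max_le h h') (zero_le_one.trans hu.one_le)

/-- sums with different exponents -/
theorem Bd.add {k j k' j' : ℕ} {x y : K} (h : Bd v Θ X k j x) (h' : Bd v Θ X k' j' y) (hu : Ult v Θ)
    (hX : 1 ≤ X) : Bd v Θ X (max k k' + 1) (max j j') (x + y) :=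
  (h.mono hu.one_le hX (le_max_left _ _) (le_max_left _ _)).add'
    (h'.mono hu.one_le hX (le_max_right _ _) (le_max_right _ _)) hu

theorem Bd.sub {k j k' j' : ℕ} {x y : K} (h : Bd v Θ X k j x) (h' : Bd v Θ X k' j' y) (hu : Ult v Θ)
    (hX : 1 ≤ X) : Bd v Θ X (max k k' + 1) (max j j') (x - y) := by
  rw [sub_eq_add_neg]
  exact h.add h'.neg hu hX

theorem bd_one (v : AbsoluteValue K ℝ) (Θ X : ℝ) : Bd v Θ X 0 0 (1 : K) := by
  unfold Bd
  simp

/-- natural numbers up to `2 ^ k` -/
theorem bd_nat (hu : Ult v Θ) (X : ℝ) : ∀ (k n : ℕ), n ≤ 2 ^ k → Bd v Θ X k 0 (n : K) := by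
  intro k
  induction k with
  | zero =>
    intro n hn
    have : n = 0 ∨ n = 1 := by omega
    rcases this with rfl | rfl
    · unfold Bd; simp
    · unfold Bd; simp
  | succ k ih =>
    intro n hn
    have e : n = n / 2 + (n - n / 2) := by omega
    have h1 := ih (n / 2) (by omega)
    have h2 := ih (n - n / 2) (by rw [pow_succ] at hn; omega)
    have h3 := h1.add' h2 hu
    rwa [← Nat.cast_add, ← e] at h3

theorem Bd.le_one_of {k : ℕ} {x : K} (h : Bd v 1 X k 0 x) : v x ≤ 1 := by
  unfold Bd at h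
  simpa using h

end

/-- the constants `Θ` -/
noncomputable def thC (K : Type) [Field K] [NumberField K] (v : AbsoluteValue K ℝ) : ℝ := by
  classical
  exact if v ∈ nonarchAbsVal (K := K) then 1 else 2

theorem cst_th (K : Type) [Field K] [NumberField K] : Cst (thC K) := by
  classical
  constructor
  · intro v
    unfold thC
    split_ifs <;> norm_num
  · convert Set.finite_empty
    ext v
    simp only [Set.mem_ofPred_eq, Set.mem_empty_iff_false, iff_false, not_and, not_not]
    intro h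
    unfold thC
    rw [if_pos h]

theorem ult_th {K : Type} [Field K] [NumberField K] (v : AbsoluteValue K ℝ) : Ult v (thC K v) := by
  classical
  unfold thC
  split_ifs with h
  · exact ult_na (isNonarchimedean v h)
  · exact ult_two v

section cst
variable {K : Type} [Field K] [NumberField K] {A B : AbsoluteValue K ℝ → ℝ}

theorem Cst.mul (hA : Cst A) (hB : Cst B) : Cst fun v => A v * B v := by
  constructor
  · intro v
    have h1 := hA.one_le v
    have h2 := hB.one_le v
    nlinarith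
  · refine (hA.fin.union hB.fin).subset ?_
    rintro v ⟨hv, hv'⟩
    by_cases h : A v = 1
    · right
      refine ⟨hv, fun h' => hv' ?_⟩
      show A v * B v = 1
      rw [h, h', one_mul]
    · left
      exact ⟨hv, h⟩

theorem Cst.pow (hA : Cst A) (k : ℕ) : Cst fun v => A v ^ k := by
  constructor
  · intro v
    exact one_le_pow₀ (hA.one_le v)
  · refine hA.fin.subset ?_
    rintro v ⟨hv, hv'⟩
    refine ⟨hv, fun h => hv' ?_⟩
    show A v ^ k = 1
    rw [h, one_pow]

/-- the constant `max 1 (v x)`, for a fixed `x` -/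
theorem cst_el (x : K) : Cst fun v => max 1 (v x) := by
  constructor
  · intro v
    exact le_max_left _ _
  · rcases eq_or_ne x 0 with h | h
    · rw [h]
      simp
    · have h7 := hasFiniteMulSupport h
      refine (h7.image (fun v : nonarchAbsVal (K := K) => v.val)).subset ?_
      rintro v ⟨hv, hv'⟩
      refine ⟨⟨v, hv⟩, ?_, rfl⟩
      intro h8
      apply hv'
      have h9 : v x = 1 := h8
      show max 1 (v x) = 1
      rw [h9, max_self]

theorem Cst.of_prod {ι : Type} [Fintype ι] {A : ι → AbsoluteValue K ℝ → ℝ} (h : ∀ i, Cst (A i)) :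
    Cst fun v => ∏ i, A i v := by
  classical
  constructor
  · intro v
    exact Finset.one_le_prod fun i _ => (h i).one_le v
  · refine (Set.finite_iUnion fun i => (h i).fin).subset ?_
    rintro v ⟨hv, hv'⟩
    rw [Set.mem_iUnion]
    by_contra hcon
    push Not at hcon
    apply hv'
    refine Finset.prod_eq_one fun i _ => ?_
    by_contra h1
    exact hcon i ⟨hv, h1⟩

end cst

end Pool.Agent.H66.TK
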