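import Pool.Agent.H66.TK.Stm

/-! # Project TK: the local inequalities for quartic forms with bounded coefficients -/

set_option autoImplicit false
set_option linter.unusedSimpArgs false

open Pool.Agent.Y720.MZ Pool.Agent.Q35.TT Pool.Agent.Q190.TT Height AdmissibleAbsValues

namespace Pool.Agent.H66.TK

/-- QRT: the inequalities for quartic forms with coefficients bounded by `A`. -/
def S_QRT : Prop :=
  ∀ (K : Type) [Field K] [NumberField K] (A : AbsoluteValue K ℝ → ℝ), Cst A →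
    ∃ C : AbsoluteValue K ℝ → ℝ, Cst C ∧
      (∀ v ∈ nonarchAbsVal (K := K), C v = 1 → v 2 = 1 ∧ v 3 = 1 ∧ A v = 1) ∧
      ∀ (a : Fin 5 → K) (s : K) (n : ℕ), n ≠ 0 → TorT a s n → ∀ k,
        (∀ v ∈ archAbsVal (K := K), (∀ i, v (a i) ≤ A v) → v (bd a ![1, s] k) ^ 2 ≤
          C v * (n : ℝ) ^ 4 * v (bq a ![1, s]) * max 1 (v s) ^ 2) ∧
        ∀ v ∈ nonarchAbsVal (K := K), (∀ i, v (a i) ≤ A v) → v (bd a ![1, s] k) ^ 2 ≤
          C v * v (bq a ![1, s]) * max 1 (v s) ^ 2

/-- the places with `A v = 1` -/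
theorem Cst.fin_ne {K : Type} [Field K] [NumberField K] {C : AbsoluteValue K ℝ → ℝ} (h : Cst C) :
    {v : AbsoluteValue K ℝ | v ∈ nonarchAbsVal (K := K) ∧ C v ≠ 1}.Finite := h.fin

theorem qrt_of (h1 : S_ART) (h2 : S_NAT) (h3 : S_GLT) (h4 : S_PLA) (h5 : S_LOT) (h6 : S_LGT) :
    S_QRT := by
  intro K _ _ A hA
  obtain ⟨p1, p2, p3⟩ := h4 K
  have key : ∀ v : AbsoluteValue K ℝ, ∃ C : ℝ, 1 ≤ C ∧
      (v ∈ nonarchAbsVal (K := K) → (∃ p, Gd v p) → A v = 1 → C = 1) ∧
      (v ∈ nonarchAbsVal (K := K) → C = 1 → v 2 = 1 ∧ v 3 = 1 ∧ A v = 1) ∧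
      ∀ (a : Fin 5 → K) (s : K) (n : ℕ), n ≠ 0 → TorT a s n → ∀ k,
        (v ∈ archAbsVal (K := K) → (∀ i, v (a i) ≤ A v) → v (bd a ![1, s] k) ^ 2 ≤
          C * (n : ℝ) ^ 4 * v (bq a ![1, s]) * max 1 (v s) ^ 2) ∧
        (v ∈ nonarchAbsVal (K := K) → (∀ i, v (a i) ≤ A v) → v (bd a ![1, s] k) ^ 2 ≤
          C * v (bq a ![1, s]) * max 1 (v s) ^ 2) := by
    intro v
    have hA1 := hA.one_le v
    by_cases hna : v ∈ nonarchAbsVal (K := K)
    · have hv := isNonarchimedean v hna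
      have hnat : ∀ n : ℕ, v (n : K) ≤ 1 := fun n => hv.apply_natCast_le_one
      have harch : v ∉ archAbsVal (K := K) := by
        intro h
        have e1 := p1 v h 2
        have e2 := hnat 2
        rw [e1] at e2
        norm_num at e2
      by_cases hg : (∃ p, Gd v p) ∧ A v = 1
      · obtain ⟨⟨p, hp⟩, hc⟩ := hg
        have e2 : v (2 : K) = 1 := by
          have := hp.unit 2 (by norm_num) (by have := hp.p5; omega)
          exact_mod_cast this
        have e3 : v (3 : K) = 1 := by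
          have := hp.unit 3 (by norm_num) (by have := hp.p5; omega)
          exact_mod_cast this
        refine ⟨1, le_rfl, fun _ _ _ => rfl, fun _ _ => ⟨e2, e3, hc⟩, ?_⟩
        intro a s n hn hT k
        refine ⟨fun h => absurd h harch, fun _ ha => ?_⟩
        have := h6 K v hv e2 e3 (h3 K v p hp) a 1 one_ne_zero
          (fun k => by rw [map_one, one_pow, ← hc]; exact ha k) s n hn hT k
        rw [map_one, one_pow, mul_one] at this
        rw [one_mul]
        exact this
      · have e30 : (3 : K) ≠ 0 := by norm_num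
        have hv3 : 0 < v (3 : K) := v.pos e30
        have hv3' : v (3 : K) ≤ 1 := by exact_mod_cast hnat 3
        have hv2' : v (2 : K) ≤ 1 := by exact_mod_cast hnat 2
        obtain ⟨α, hα⟩ : ∃ α, α = A v := ⟨_, rfl⟩
        rw [← hα] at hA1
        set A' : ℝ := (16 * α ^ 2 + 137 * α ^ 3) / v 3 ^ 3 with hA'
        have hA2 : (1 : ℝ) ≤ α ^ 2 := one_le_pow₀ hA1
        have hA3 : (1 : ℝ) ≤ α ^ 3 := one_le_pow₀ hA1
        have hv33 : 0 < v (3 : K) ^ 3 := by positivity
        have hA'1 : 1 ≤ A' := by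
          rw [hA', le_div_iff₀ hv33]
          have : v (3 : K) ^ 3 ≤ 1 := pow_le_one₀ hv3.le hv3'
          linarith
        obtain ⟨B, hB, hLB⟩ := h2 K v hv (p2 v hna) A' hA'1
        have hq1 : 16 * α ^ 2 ≤ A' * v 3 := by
          rw [hA', div_mul_eq_mul_div, le_div_iff₀ hv33]
          have : v (3 : K) ^ 3 ≤ v 3 := by
            calc v (3 : K) ^ 3 ≤ v 3 ^ 1 := pow_le_pow_of_le_one hv3.le hv3' (by norm_num)
              _ = v 3 := pow_one _
          nlinarith
        have hq2 : 137 * α ^ 3 ≤ A' * v 3 ^ 3 := by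
          rw [hA', div_mul_cancel₀ _ hv33.ne']
          linarith
        have hbig : (144 : ℝ) ≤ (144 * α + 12 * B) / v 3 := by
          rw [le_div_iff₀ hv3]
          nlinarith
        refine ⟨(144 * α + 12 * B) / v 3, by linarith, fun _ hg1 hg2 => absurd ⟨hg1, hg2⟩ hg,
          fun _ h => ?_, ?_⟩
        · rw [h] at hbig
          norm_num at hbig
        intro a s n hn hT k
        refine ⟨fun h => absurd h harch, fun _ ha => ?_⟩
        have := h5 K v α A' B 0 hA1 hB (by linarith) hq1 hq2 (by linarith) (by linarith) hLB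
          a 1 one_ne_zero (fun k => by rw [map_one, one_pow, mul_one, hα]; exact ha k) s n hn hT k
        rw [map_one, one_pow, mul_one, pow_zero, mul_one] at this
        have e : (144 * α + 12 * B) / v 3 * v (bq a ![1, s]) * max 1 (v s) ^ 2 =
              ((144 * α + 12 * B) * v (bq a ![1, s]) * max 1 (v s) ^ 2) / v 3 := by
          ring
        rw [e, le_div_iff₀ hv3, mul_comm]
        exact this
    · by_cases har : v ∈ archAbsVal (K := K)
      · have hn := p1 v har
        have e3 : v (3 : K) = 3 := by exact_mod_cast hn 3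
        have e2 : v (2 : K) = 2 := by exact_mod_cast hn 2
        obtain ⟨α, hα⟩ : ∃ α, α = A v := ⟨_, rfl⟩
        rw [← hα] at hA1
        have hA2 : (1 : ℝ) ≤ α ^ 2 := one_le_pow₀ hA1
        have hA3 : (1 : ℝ) ≤ α ^ 3 := one_le_pow₀ hA1
        obtain ⟨B, hB, hLB⟩ := h1 K (16 * α ^ 2 + 137 * α ^ 3) (by linarith)
        refine ⟨144 * α + 12 * B, by linarith, fun h => absurd h hna, fun h => absurd h hna, ?_⟩
        intro a s n hn hT k
        refine ⟨fun _ ha => ?_, fun h => absurd h hna⟩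
        have := h5 K v α (16 * α ^ 2 + 137 * α ^ 3) B 4 hA1 hB (by linarith)
          (by rw [e3]; linarith) (by rw [e3]; linarith) e2.le e3.le (hLB v har)
          a 1 one_ne_zero (fun k => by rw [map_one, one_pow, mul_one, hα]; exact ha k) s n hn hT k
        rw [map_one, one_pow, mul_one, e3] at this
        have hsq : 0 ≤ v (bd a ![1, s] k) ^ 2 := by positivity
        linarith
      · exact ⟨1, le_rfl, fun h => absurd h hna, fun h => absurd h hna,
          fun a s n _ _ k => ⟨fun h => absurd h har, fun h => absurd h hna⟩⟩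
  choose C hC1 hC2 hC2' hC3 using key
  refine ⟨C, ⟨hC1, ?_⟩, fun v hv h => hC2' v hv h, ?_⟩
  · refine (p3.union hA.fin).subset ?_
    rintro v ⟨hv, hv'⟩
    by_cases hg : ∃ p, Gd v p
    · right
      refine ⟨hv, fun h => hv' (hC2 v hv hg h)⟩
    · left
      exact ⟨hv, hg⟩
  · intro a s n hn hT k
    exact ⟨fun v hv => (hC3 v a s n hn hT k).1 hv, fun v hv => (hC3 v a s n hn hT k).2 hv⟩

open Pool.Agent.Q121.TT (trn) in
theorem qrt : S_QRT :=
  qrt_of (art_ Pool.Agent.Q53.TT.ARC.arc trn)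
    (nat_ Pool.Agent.Q68.TT.Ext.ext (Pool.Agent.Q53.TT.NAR.nar trn) trn)
    (Pool.Agent.Q79.TT.glt Pool.Agent.Q68.TT.Ext.ext Pool.Agent.Q137.TT.inf_ trn)
    Pool.Agent.Q193.TT.pla (Pool.Agent.Q190.TT.Lot.lot trn) (Pool.Agent.Q190.TT.Lot.lgt trn)

end Pool.Agent.H66.TK
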