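import Pool.Agent.H66.TK.Scl
import Pool.Agent.H66.TK.Qrt
import Pool.Agent.H66.TK.Bnd

/-! # Project TK, part LIN: the local inequalities for a point with torsion on a plane cubic -/

set_option autoImplicit false
set_option linter.unusedSimpArgs false

open Pool.Agent.Y720.MZ Pool.Agent.Q35.TT Pool.Agent.Q190.TT Height AdmissibleAbsValues
open Pool.Agent.Q224.TT.Loc (bq1 bd0 bd1 tay0)

namespace Pool.Agent.H66.TK

section alg
variable {K : Type} [Field K]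

theorem q2v (c : Fin 3 → K) (t : K) : q2 c ![1, t] = c 0 + c 1 * t + c 2 * t ^ 2 := by
  simp [q2]

theorem q3v (c : Fin 4 → K) (t : K) :
    q3 c ![1, t] = c 0 + c 1 * t + c 2 * t ^ 2 + c 3 * t ^ 3 := by
  simp [q3]

theorem cwv (α : Fin 3 → K) (w t : K) : cw α w ![1, t] = 3 * w ^ 2 + (α 0 + α 1 * t + α 2 * t ^ 2) := by
  rw [cw, q2v]

theorem c1v (α : Fin 3 → K) (β : Fin 4 → K) (w t : K) : c1 α β w ![1, t] =
    (α 1 + 2 * α 2 * t) * w + (β 1 + 2 * β 2 * t + 3 * β 3 * t ^ 2) := by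
  simp [c1]

theorem mmv (α : Fin 3 → K) (β : Fin 4 → K) (w t u z : K) : mm α β w ![1, t] u z =
    3 * w * u ^ 2 + (α 1 + 2 * α 2 * t) * (u * z) + (α 2 * w + β 2 + 3 * β 3 * t) * z ^ 2 := by
  simp [mm]

theorem gq0 (α : Fin 3 → K) (β : Fin 4 → K) (w t : K) : gq α β w ![1, t] 0 =
    (α 2 * w + β 2 + 3 * β 3 * t) ^ 2 - 4 * (c1 α β w ![1, t] * β 3) := by
  simp [gq]

theorem gq1 (α : Fin 3 → K) (β : Fin 4 → K) (w t : K) : gq α β w ![1, t] 1 =
    2 * (α 1 + 2 * α 2 * t) * (α 2 * w + β 2 + 3 * β 3 * t) -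
      4 * (cw α w ![1, t] * β 3 + c1 α β w ![1, t] * α 2) := by
  simp [gq]

theorem gq2 (α : Fin 3 → K) (β : Fin 4 → K) (w t : K) : gq α β w ![1, t] 2 =
    (α 1 + 2 * α 2 * t) ^ 2 + 2 * (3 * w) * (α 2 * w + β 2 + 3 * β 3 * t) -
      4 * (cw α w ![1, t] * α 2) := by
  simp [gq]

theorem gq3 (α : Fin 3 → K) (β : Fin 4 → K) (w t : K) : gq α β w ![1, t] 3 =
    2 * (3 * w) * (α 1 + 2 * α 2 * t) - 4 * c1 α β w ![1, t] := by
  simp [gq]

theorem gq4 (α : Fin 3 → K) (β : Fin 4 → K) (w t : K) : gq α β w ![1, t] 4 =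
    (3 * w) ^ 2 - 4 * cw α w ![1, t] := by
  simp [gq]

/-- `s` is the tangent direction -/
theorem bq_gq (α : Fin 3 → K) (β : Fin 4 → K) (w t s : K)
    (hs : cw α w ![1, t] * s + c1 α β w ![1, t] = 0) :
    bq (gq α β w ![1, t]) ![1, s] = mm α β w ![1, t] s 1 ^ 2 := by
  rw [bq1, gq0, gq1, gq2, gq3, gq4, mmv]
  obtain ⟨l, hl⟩ : ∃ l, l = cw α w ![1, t] := ⟨_, rfl⟩
  obtain ⟨c, hc⟩ : ∃ l, l = c1 α β w ![1, t] := ⟨_, rfl⟩
  rw [← hl, ← hc] at hs ⊢
  linear_combination (-4 * (s ^ 3 + α 2 * s + β 3)) * hs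

/-- the derivatives of `mm` -/
def mu (α : Fin 3 → K) (w t s : K) : K := 6 * w * s + (α 1 + 2 * α 2 * t)

/-- the derivatives of `mm` -/
def mv (α : Fin 3 → K) (β : Fin 4 → K) (w t s : K) : K :=
  (α 1 + 2 * α 2 * t) * s + 2 * (α 2 * w + β 2 + 3 * β 3 * t)

theorem bd_gq1 (α : Fin 3 → K) (β : Fin 4 → K) (w t s : K)
    (hs : cw α w ![1, t] * s + c1 α β w ![1, t] = 0) :
    4 * (cw α w ![1, t] * nn α β s 1) =
      2 * mm α β w ![1, t] s 1 * mu α w t s - bd (gq α β w ![1, t]) ![1, s] 1 := by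
  rw [bd1, tay0, gq1, gq2, gq3, gq4, mmv, mu, nn]
  obtain ⟨l, hl⟩ : ∃ l, l = cw α w ![1, t] := ⟨_, rfl⟩
  obtain ⟨c, hc⟩ : ∃ l, l = c1 α β w ![1, t] := ⟨_, rfl⟩
  rw [← hl, ← hc] at hs ⊢
  linear_combination (-4 * (3 * s ^ 2 + α 2)) * hs

theorem bd_gq0 (α : Fin 3 → K) (β : Fin 4 → K) (w t s : K)
    (hs : cw α w ![1, t] * s + c1 α β w ![1, t] = 0) :
    4 * (c1 α β w ![1, t] * nn α β s 1) =
      2 * mm α β w ![1, t] s 1 * mv α β w t s - bd (gq α β w ![1, t]) ![1, s] 0 := by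
  rw [bd0, gq0, gq1, gq2, gq3, mmv, mv, nn]
  obtain ⟨l, hl⟩ : ∃ l, l = cw α w ![1, t] := ⟨_, rfl⟩
  obtain ⟨c, hc⟩ : ∃ l, l = c1 α β w ![1, t] := ⟨_, rfl⟩
  rw [← hl, ← hc] at hs ⊢
  linear_combination (-4 * (2 * s * α 2 + 3 * β 3)) * hs

theorem DD_eq (α : Fin 3 → K) (β : Fin 4 → K) (w t s : K)
    (hs : cw α w ![1, t] * s + c1 α β w ![1, t] = 0) :
    DD α β w ![1, t] = cw α w ![1, t] ^ 2 * mm α β w ![1, t] s 1 := by
  have h1 : -(c1 α β w ![1, t]) = cw α w ![1, t] * s := by linear_combination -hs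
  rw [DD, h1, mmv, mmv]
  ring

theorem NN_eq (α : Fin 3 → K) (β : Fin 4 → K) (w t s : K)
    (hs : cw α w ![1, t] * s + c1 α β w ![1, t] = 0) :
    NN α β w ![1, t] = cw α w ![1, t] ^ 3 * nn α β s 1 := by
  have h1 : -(c1 α β w ![1, t]) = cw α w ![1, t] * s := by linear_combination -hs
  rw [NN, h1, nn, nn]
  ring

theorem bd_sca (a : Fin 5 → K) (s ξ : K) (k : Fin 2) :
    bd (sca a 1 ξ) ![1, s] k = bd a ![1, s] k / ξ ^ 2 := by
  fin_cases k
  · show bd (sca a 1 ξ) ![1, s] 0 = bd a ![1, s] 0 / ξ ^ 2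
    rw [bd0, bd0]
    simp only [sca, one_pow, mul_one]
    ring
  · show bd (sca a 1 ξ) ![1, s] 1 = bd a ![1, s] 1 / ξ ^ 2
    rw [bd1, bd1, tay0, tay0]
    simp only [sca, one_pow, mul_one]
    ring

theorem bq_sca (a : Fin 5 → K) (s ξ : K) :
    bq (sca a 1 ξ) ![1, s] = bq a ![1, s] / ξ ^ 2 := by
  rw [bq1, bq1]
  simp only [sca, one_pow, mul_one]
  ring

end alg

section bnd
variable {K : Type} [Field K] {v : AbsoluteValue K ℝ} {Θ X : ℝ}

/-- the ordinate is bounded -/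
theorem bd_w (hu : Ult v Θ) (hX : 1 ≤ X) {α : Fin 3 → K} {β : Fin 4 → K} {w t : K}
    (hα : ∀ i, Bd v Θ X 1 0 (α i)) (hβ : ∀ i, Bd v Θ X 1 0 (β i)) (ht : Bd v Θ X 0 1 t)
    (hc : cub α β w ![1, t] = 0) : Bd v Θ X 5 1 w := by
  have hΘ := hu.one_le
  have t2 := ht.pow 2
  have t3 := ht.pow 3
  have a1 : Bd v Θ X 3 2 (α 0 + α 1 * t + α 2 * t ^ 2) :=
    (((hα 0).add ((hα 1).mul ht hΘ hX) hu hX).add ((hα 2).mul t2 hΘ hX) hu hX).mono hΘ hX
      (by norm_num) (by norm_num)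
  have a2 : Bd v Θ X 4 3 (β 0 + β 1 * t + β 2 * t ^ 2 + β 3 * t ^ 3) :=
    ((((hβ 0).add ((hβ 1).mul ht hΘ hX) hu hX).add ((hβ 2).mul t2 hΘ hX) hu hX).add
      ((hβ 3).mul t3 hΘ hX) hu hX).mono hΘ hX (by norm_num) (by norm_num)
  rw [cub, q2v, q3v] at hc
  unfold Bd at a1 a2 ⊢
  by_contra hcon
  push Not at hcon
  rw [pow_one] at hcon
  have hw0 : 0 < v w := lt_of_le_of_lt (by positivity) hcon
  have e : w ^ 3 = -((α 0 + α 1 * t + α 2 * t ^ 2) * w + (β 0 + β 1 * t + β 2 * t ^ 2 + β 3 * t ^ 3)) := by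
    linear_combination hc
  have h1 := hu.add ((α 0 + α 1 * t + α 2 * t ^ 2) * w) (β 0 + β 1 * t + β 2 * t ^ 2 + β 3 * t ^ 3)
  rw [← v.map_neg, ← e, map_pow, map_mul] at h1
  have hX0 : 0 < X := by linarith
  have hΘ0 : 0 < Θ := by linarith
  rcases max_choice (v (α 0 + α 1 * t + α 2 * t ^ 2) * v w)
    (v (β 0 + β 1 * t + β 2 * t ^ 2 + β 3 * t ^ 3)) with h2 | h2
  · rw [h2] at h1
    have h3 : v w ^ 3 ≤ Θ * (Θ ^ 3 * X ^ 2 * v w) :=
      h1.trans (mul_le_mul_of_nonneg_left (mul_le_mul_of_nonneg_right a1 hw0.le) hΘ0.le)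
    have h4 : v w ^ 2 ≤ Θ ^ 4 * X ^ 2 := by
      have : v w * v w ^ 2 ≤ v w * (Θ ^ 4 * X ^ 2) := by
        calc v w * v w ^ 2 = v w ^ 3 := by ring
          _ ≤ _ := h3
          _ = _ := by ring
      exact le_of_mul_le_mul_left this hw0
    have h5 : (Θ ^ 5 * X) ^ 2 < v w ^ 2 := pow_lt_pow_left₀ hcon (by positivity) two_ne_zero
    have h6 : Θ ^ 4 * X ^ 2 ≤ (Θ ^ 5 * X) ^ 2 := by
      rw [mul_pow, ← pow_mul]
      exact mul_le_mul_of_nonneg_right (pow_le_pow_right₀ hΘ (by norm_num)) (by positivity)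
    linarith
  · rw [h2] at h1
    have h3 : v w ^ 3 ≤ Θ * (Θ ^ 4 * X ^ 3) := h1.trans (mul_le_mul_of_nonneg_left a2 hΘ0.le)
    have h5 : (Θ ^ 5 * X) ^ 3 < v w ^ 3 := pow_lt_pow_left₀ hcon (by positivity) three_ne_zero
    have h6 : Θ * (Θ ^ 4 * X ^ 3) ≤ (Θ ^ 5 * X) ^ 3 := by
      rw [mul_pow, ← pow_mul, ← mul_assoc, ← pow_succ']
      exact mul_le_mul_of_nonneg_right (pow_le_pow_right₀ hΘ (by norm_num)) (by positivity)
    linarith

/-- all the coefficients -/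
theorem bd_all (hu : Ult v Θ) (hX : 1 ≤ X) {α : Fin 3 → K} {β : Fin 4 → K} {w t : K}
    (hα : ∀ i, Bd v Θ X 1 0 (α i)) (hβ : ∀ i, Bd v Θ X 1 0 (β i)) (ht : Bd v Θ X 0 1 t)
    (hw : Bd v Θ X 5 1 w) :
    Bd v Θ X 20 1 (α 1 + 2 * α 2 * t) ∧ Bd v Θ X 20 1 (α 2 * w + β 2 + 3 * β 3 * t) ∧
      Bd v Θ X 20 2 (cw α w ![1, t]) ∧ Bd v Θ X 20 2 (c1 α β w ![1, t]) := by
  have hΘ := hu.one_le
  have t2 := ht.pow 2
  have n2 : Bd v Θ X 1 0 (2 : K) := by exact_mod_cast bd_nat hu X 1 2 (by norm_num)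
  have n3 : Bd v Θ X 2 0 (3 : K) := by exact_mod_cast bd_nat hu X 2 3 (by norm_num)
  have b1 := (hα 1).add ((n2.mul (hα 2) hΘ hX).mul ht hΘ hX) hu hX
  refine ⟨b1.mono hΘ hX (by norm_num) (by norm_num), ?_, ?_, ?_⟩
  · exact ((((hα 2).mul hw hΘ hX).add (hβ 2) hu hX).add ((n3.mul (hβ 3) hΘ hX).mul ht hΘ hX) hu
      hX).mono hΘ hX (by norm_num) (by norm_num)
  · rw [cwv]
    exact ((n3.mul (hw.pow 2) hΘ hX).add (((hα 0).add ((hα 1).mul ht hΘ hX) hu hX).add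
      ((hα 2).mul t2 hΘ hX) hu hX) hu hX).mono hΘ hX (by norm_num) (by norm_num)
  · rw [c1v]
    exact ((b1.mul hw hΘ hX).add (((hβ 1).add ((n2.mul (hβ 2) hΘ hX).mul ht hΘ hX) hu hX).add
      ((n3.mul (hβ 3) hΘ hX).mul t2 hΘ hX) hu hX) hu hX).mono hΘ hX (by norm_num) (by norm_num)

theorem bd_gq (hu : Ult v Θ) (hX : 1 ≤ X) {α : Fin 3 → K} {β : Fin 4 → K} {w t : K}
    (hα : ∀ i, Bd v Θ X 1 0 (α i)) (hβ : ∀ i, Bd v Θ X 1 0 (β i)) (ht : Bd v Θ X 0 1 t)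
    (hw : Bd v Θ X 5 1 w) (i : Fin 5) : Bd v Θ X 60 2 (gq α β w ![1, t] i) := by
  have hΘ := hu.one_le
  obtain ⟨h1, h2, h3, h4⟩ := bd_all hu hX hα hβ ht hw
  have n2 : Bd v Θ X 1 0 (2 : K) := by exact_mod_cast bd_nat hu X 1 2 (by norm_num)
  have n3 : Bd v Θ X 2 0 (3 : K) := by exact_mod_cast bd_nat hu X 2 3 (by norm_num)
  have n4 : Bd v Θ X 2 0 (4 : K) := by exact_mod_cast bd_nat hu X 2 4 (by norm_num)
  have m3 := n3.mul hw hΘ hX
  fin_cases i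
  · show Bd v Θ X 60 2 (gq α β w ![1, t] 0)
    rw [gq0]
    exact ((h2.pow 2).sub (n4.mul (h4.mul (hβ 3) hΘ hX) hΘ hX) hu hX).mono hΘ hX (by norm_num)
      (by norm_num)
  · show Bd v Θ X 60 2 (gq α β w ![1, t] 1)
    rw [gq1]
    exact (((n2.mul h1 hΘ hX).mul h2 hΘ hX).sub (n4.mul ((h3.mul (hβ 3) hΘ hX).add
      (h4.mul (hα 2) hΘ hX) hu hX) hΘ hX) hu hX).mono hΘ hX (by norm_num) (by norm_num)
  · show Bd v Θ X 60 2 (gq α β w ![1, t] 2)
    rw [gq2]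
    exact (((h1.pow 2).add ((n2.mul m3 hΘ hX).mul h2 hΘ hX) hu hX).sub
      (n4.mul (h3.mul (hα 2) hΘ hX) hΘ hX) hu hX).mono hΘ hX (by norm_num) (by norm_num)
  · show Bd v Θ X 60 2 (gq α β w ![1, t] 3)
    rw [gq3]
    exact (((n2.mul m3 hΘ hX).mul h1 hΘ hX).sub (n4.mul h4 hΘ hX) hu hX).mono hΘ hX (by norm_num)
      (by norm_num)
  · show Bd v Θ X 60 2 (gq α β w ![1, t] 4)
    rw [gq4]
    exact ((m3.pow 2).sub (n4.mul h3 hΘ hX) hu hX).mono hΘ hX (by norm_num) (by norm_num)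

/-- the inequality at one place -/
theorem lin_core (hu : Ult v Θ) (hX : 1 ≤ X) {α : Fin 3 → K} {β : Fin 4 → K} {w t s : K}
    (hα : ∀ i, Bd v Θ X 1 0 (α i)) (hβ : ∀ i, Bd v Θ X 1 0 (β i)) (ht : Bd v Θ X 0 1 t)
    (hw : Bd v Θ X 5 1 w) (hs : cw α w ![1, t] * s + c1 α β w ![1, t] = 0)
    (hcw : cw α w ![1, t] ≠ 0) {C ν : ℝ} (hC : 1 ≤ C) (hν : 1 ≤ ν) (h4 : v (4 : K) ≠ 0)
    (hb : ∀ k, v (bd (gq α β w ![1, t]) ![1, s] k) ^ 2 ≤
      C * ν ^ 2 * v (bq (gq α β w ![1, t]) ![1, s]) * X ^ 2 * max 1 (v s) ^ 2) :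
    v (NN α β w ![1, t]) ≤ Θ ^ 30 * C / v 4 * ν * v (DD α β w ![1, t]) * X := by
  have hΘ := hu.one_le
  have h40 : 0 < v (4 : K) := lt_of_le_of_ne (v.nonneg _) (Ne.symm h4)
  obtain ⟨b1, b2, b3, b4⟩ := bd_all hu hX hα hβ ht hw
  have n2 : Bd v Θ X 1 0 (2 : K) := by exact_mod_cast bd_nat hu X 1 2 (by norm_num)
  have n6 : Bd v Θ X 3 0 (6 : K) := by exact_mod_cast bd_nat hu X 3 6 (by norm_num)
  obtain ⟨S, hS⟩ : ∃ S, S = max 1 (v s) := ⟨_, rfl⟩
  rw [← hS] at hb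
  have hS1 : 1 ≤ S := by rw [hS]; exact le_max_left _ _
  have hsS : v s ≤ S := by rw [hS]; exact le_max_right _ _
  obtain ⟨M, hM⟩ : ∃ M, M = v (mm α β w ![1, t] s 1) := ⟨_, rfl⟩
  have hM0 : 0 ≤ M := by rw [hM]; exact v.nonneg _
  have hbq : v (bq (gq α β w ![1, t]) ![1, s]) = M ^ 2 := by
    rw [bq_gq α β w t s hs, map_pow, hM]
  rw [hbq] at hb
  have hX0 : 0 < X := by linarith
  have hΘ0 : 0 < Θ := by linarith
  have hC0 : 0 < C := by linarith
  have hν0 : 0 < ν := by linarith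
  -- the derivatives of the quartic form
  have hb' : ∀ k, v (bd (gq α β w ![1, t]) ![1, s] k) ≤ C * ν * M * X * S := by
    intro k
    apply le_of_sq_le_sq ?_ (by positivity)
    refine (hb k).trans ?_
    have h1 : C ≤ C ^ 2 := by nlinarith
    calc C * ν ^ 2 * M ^ 2 * X ^ 2 * S ^ 2 = C * (ν ^ 2 * M ^ 2 * X ^ 2 * S ^ 2) := by ring
      _ ≤ C ^ 2 * (ν ^ 2 * M ^ 2 * X ^ 2 * S ^ 2) := mul_le_mul_of_nonneg_right h1 (by positivity)
      _ = _ := by ring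
  -- the derivatives of `mm`
  have bs : v s ≤ S := hsS
  have hlin : ∀ x y : K, Bd v Θ X 20 1 x → Bd v Θ X 22 1 y → v (x * s + y) ≤ Θ ^ 23 * X * S := by
    intro x y hx hy
    unfold Bd at hx hy
    rw [pow_one] at hx hy
    have e1 : v (x * s) ≤ Θ ^ 22 * X * S := by
      rw [map_mul]
      refine mul_le_mul (hx.trans ?_) hsS (v.nonneg _) (by positivity)
      exact mul_le_mul_of_nonneg_right (pow_le_pow_right₀ hΘ (by norm_num)) hX0.le
    have e2 : v y ≤ Θ ^ 22 * X * S := hy.trans (le_mul_of_one_le_right (by positivity) hS1)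
    refine (hu.add _ _).trans ?_
    calc Θ * max (v (x * s)) (v y) ≤ Θ * (Θ ^ 22 * X * S) :=
          mul_le_mul_of_nonneg_left (max_le e1 e2) hΘ0.le
      _ = _ := by ring
  have hmu : v (mu α w t s) ≤ Θ ^ 23 * X * S := by
    unfold mu
    exact hlin _ _ ((n6.mul hw hΘ hX).mono hΘ hX (by norm_num) (by norm_num))
      (b1.mono hΘ hX (by norm_num) le_rfl)
  have hmv : v (mv α β w t s) ≤ Θ ^ 23 * X * S := by
    unfold mv
    exact hlin _ _ b1 ((n2.mul b2 hΘ hX).mono hΘ hX (by norm_num) (by norm_num))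
  have v2 : v (2 : K) ≤ Θ := by
    have := n2
    unfold Bd at this
    simpa using this
  have hfin : ∀ (l d : K) (k : Fin 2), v d ≤ Θ ^ 23 * X * S →
      4 * (l * nn α β s 1) = 2 * mm α β w ![1, t] s 1 * d - bd (gq α β w ![1, t]) ![1, s] k →
      v l * v (nn α β s 1) ≤ Θ ^ 25 * C / v 4 * ν * M * X * S := by
    intro l d k hd he
    have h1 : v (4 * (l * nn α β s 1)) = v 4 * (v l * v (nn α β s 1)) := by
      rw [map_mul, map_mul]
    have h2 : v (2 * mm α β w ![1, t] s 1 * d) ≤ Θ ^ 24 * C * ν * M * X * S := by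
      rw [map_mul, map_mul, ← hM]
      calc v 2 * M * v d ≤ Θ * M * (Θ ^ 23 * X * S) :=
            mul_le_mul (mul_le_mul_of_nonneg_right v2 hM0) hd (v.nonneg _) (by positivity)
        _ = (Θ ^ 24 * M * X * S) * 1 := by ring
        _ ≤ (Θ ^ 24 * M * X * S) * (C * ν) :=
            mul_le_mul_of_nonneg_left (by nlinarith) (by positivity)
        _ = _ := by ring
    have h3 : v (bd (gq α β w ![1, t]) ![1, s] k) ≤ Θ ^ 24 * C * ν * M * X * S := by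
      refine (hb' k).trans ?_
      calc C * ν * M * X * S = 1 * (C * ν * M * X * S) := by ring
        _ ≤ Θ ^ 24 * (C * ν * M * X * S) :=
            mul_le_mul_of_nonneg_right (one_le_pow₀ hΘ) (by positivity)
        _ = _ := by ring
    have h5 : v (4 * (l * nn α β s 1)) ≤ Θ ^ 25 * C * ν * M * X * S := by
      rw [he, sub_eq_add_neg]
      refine (hu.add _ _).trans ?_
      rw [v.map_neg]
      calc _ ≤ Θ * (Θ ^ 24 * C * ν * M * X * S) :=
            mul_le_mul_of_nonneg_left (max_le h2 h3) hΘ0.le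
        _ = _ := by ring
    rw [h1] at h5
    have e : Θ ^ 25 * C / v 4 * ν * M * X * S = (Θ ^ 25 * C * ν * M * X * S) / v 4 := by
      ring
    rw [e, le_div_iff₀ h40, mul_comm]
    exact h5
  have f1 := hfin _ _ 1 hmu (bd_gq1 α β w t s hs)
  have f0 := hfin _ _ 0 hmv (bd_gq0 α β w t s hs)
  have hcs : v (c1 α β w ![1, t]) = v (cw α w ![1, t]) * v s := by
    rw [← map_mul, ← v.map_neg]
    congr 1
    linear_combination -hs
  have hl0 : 0 < v (cw α w ![1, t]) := v.pos hcw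
  have hn0 := v.nonneg (nn α β s 1)
  have hkey : v (cw α w ![1, t]) * v (nn α β s 1) ≤ Θ ^ 25 * C / v 4 * ν * M * X := by
    rcases le_total (v s) 1 with h | h
    · have hS' : S = 1 := by rw [hS, max_eq_left h]
      rw [hS', mul_one] at f1
      exact f1
    · have hS' : S = v s := by rw [hS, max_eq_right h]
      rw [hS', hcs] at f0
      have hs0 : 0 < v s := by linarith
      have : (v (cw α w ![1, t]) * v (nn α β s 1)) * v s ≤ (Θ ^ 25 * C / v 4 * ν * M * X) * v s := by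
        calc _ = v (cw α w ![1, t]) * v s * v (nn α β s 1) := by ring
          _ ≤ _ := f0
      exact le_of_mul_le_mul_right this hs0
  rw [NN_eq α β w t s hs, DD_eq α β w t s hs, map_mul, map_mul, map_pow, map_pow, ← hM]
  obtain ⟨l, hl⟩ : ∃ l, l = v (cw α w ![1, t]) := ⟨_, rfl⟩
  rw [← hl] at hkey hl0 ⊢
  have h30 : Θ ^ 25 * C / v 4 * ν * M * X ≤ Θ ^ 30 * C / v 4 * ν * M * X := by
    have h1 : Θ ^ 25 ≤ Θ ^ 30 := pow_le_pow_right₀ hΘ (by norm_num)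
    have h2 : 0 ≤ C / v 4 * ν * M * X := by positivity
    calc Θ ^ 25 * C / v 4 * ν * M * X = Θ ^ 25 * (C / v 4 * ν * M * X) := by ring
      _ ≤ Θ ^ 30 * (C / v 4 * ν * M * X) := mul_le_mul_of_nonneg_right h1 h2
      _ = _ := by ring
  calc l ^ 3 * v (nn α β s 1) = l ^ 2 * (l * v (nn α β s 1)) := by ring
    _ ≤ l ^ 2 * (Θ ^ 30 * C / v 4 * ν * M * X) :=
        mul_le_mul_of_nonneg_left (hkey.trans h30) (by positivity)
    _ = _ := by ring

end bnd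

/-- **LIN** -/
theorem lin : S_LIN := by
  intro K _ _ A hA
  have hΘc : Cst fun v => thC K v * A v := (cst_th K).mul hA
  have hA0 : Cst fun v => (thC K v * A v) ^ 60 := hΘc.pow 60
  obtain ⟨C, hC, hC1, hq⟩ := qrt K _ hA0
  obtain ⟨p1, -, -⟩ := Pool.Agent.Q193.TT.pla K
  have h4K : (4 : K) ≠ 0 := by norm_num
  refine ⟨fun v => (thC K v * A v) ^ 30 * C v * max 1 (1 / v 4), ?_, ?_⟩
  · constructor
    · intro v
      have h1 := (hΘc.pow 30).one_le v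
      have h2 := hC.one_le v
      have h3 : (1 : ℝ) ≤ max 1 (1 / v 4) := le_max_left _ _
      have h4 := one_le_mul_of_one_le_of_one_le h1 h2
      exact one_le_mul_of_one_le_of_one_le h4 h3
    · refine (((hΘc.pow 30).fin).union hC.fin).subset ?_
      rintro v ⟨hv, hv'⟩
      by_cases h1 : C v = 1
      · by_cases h2 : (thC K v * A v) ^ 30 = 1
        · exfalso
          apply hv'
          obtain ⟨e2, -, -⟩ := hC1 v hv h1
          have e4 : v (4 : K) = 1 := by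
            rw [show (4 : K) = 2 ^ 2 by norm_num, map_pow, e2, one_pow]
          show (thC K v * A v) ^ 30 * C v * max 1 (1 / v 4) = 1
          rw [h1, h2, e4]
          norm_num
        · left
          exact ⟨hv, h2⟩
      · right
        exact ⟨hv, h1⟩
  intro α β w t n hn hc hcw hT
  obtain ⟨s, hs⟩ : ∃ s, s = -(c1 α β w ![1, t]) / cw α w ![1, t] := ⟨_, rfl⟩
  rw [← hs] at hT
  have hs' : cw α w ![1, t] * s + c1 α β w ![1, t] = 0 := by
    rw [hs]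
    field_simp
    ring
  have hn1 : (1 : ℝ) ≤ n := by exact_mod_cast Nat.one_le_iff_ne_zero.2 hn
  have main : ∀ v : AbsoluteValue K ℝ, ∀ ν : ℝ, 1 ≤ ν →
      (∀ a : Fin 5 → K, TorT a s n → (∀ i, v (a i) ≤ (thC K v * A v) ^ 60) → ∀ k,
        v (bd a ![1, s] k) ^ 2 ≤ C v * ν ^ 2 * v (bq a ![1, s]) * max 1 (v s) ^ 2) →
      (∀ i, v (α i) ≤ A v) → (∀ i, v (β i) ≤ A v) →
      v (NN α β w ![1, t]) ≤ (thC K v * A v) ^ 30 * C v * max 1 (1 / v 4) * ν *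
        v (DD α β w ![1, t]) * max 1 (v t) := by
    intro v ν hν hq' hα hβ
    have hu : Ult v (thC K v * A v) :=
      (ult_th v).mono (le_mul_of_one_le_right (zero_le_one.trans (ult_th v).one_le) (hA.one_le v))
    have hX : 1 ≤ max 1 (v t) := le_max_left _ _
    have hAt : A v ≤ thC K v * A v :=
      le_mul_of_one_le_left (zero_le_one.trans (hA.one_le v)) (ult_th v).one_le
    have bα : ∀ i, Bd v (thC K v * A v) (max 1 (v t)) 1 0 (α i) := by
      intro i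
      unfold Bd
      rw [pow_one, pow_zero, mul_one]
      exact (hα i).trans hAt
    have bβ : ∀ i, Bd v (thC K v * A v) (max 1 (v t)) 1 0 (β i) := by
      intro i
      unfold Bd
      rw [pow_one, pow_zero, mul_one]
      exact (hβ i).trans hAt
    have bt : Bd v (thC K v * A v) (max 1 (v t)) 0 1 t := by
      unfold Bd
      rw [pow_one, pow_zero, one_mul]
      exact le_max_right _ _
    have bw := bd_w hu hX bα bβ bt hc
    obtain ⟨ξ, hξ0, hξ⟩ : ∃ ξ : K, ξ ≠ 0 ∧ v ξ = max 1 (v t) := by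
      rcases le_total (v t) 1 with h | h
      · exact ⟨1, one_ne_zero, by rw [map_one, max_eq_left h]⟩
      · refine ⟨t, ?_, by rw [max_eq_right h]⟩
        rintro rfl
        rw [map_zero] at h
        linarith
    have hTs := scl Pool.Agent.Q121.TT.trn K (gq α β w ![1, t]) s 1 ξ n one_ne_zero hξ0 hT
    rw [div_one] at hTs
    change TorT (sca (gq α β w ![1, t]) 1 ξ) s n at hTs
    have hξp : 0 < v ξ := v.pos hξ0
    have hbound := hq' (sca (gq α β w ![1, t]) 1 ξ) hTs (by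
      intro i
      show v (gq α β w ![1, t] i * 1 ^ (i : ℕ) / ξ ^ 2) ≤ _
      rw [one_pow, mul_one, map_div₀, map_pow, div_le_iff₀ (by positivity), hξ]
      exact bd_gq hu hX bα bβ bt bw i)
    have hbnd : ∀ k, v (bd (gq α β w ![1, t]) ![1, s] k) ^ 2 ≤
        C v * ν ^ 2 * v (bq (gq α β w ![1, t]) ![1, s]) * max 1 (v t) ^ 2 * max 1 (v s) ^ 2 := by
      intro k
      have h1 := hbound k
      rw [bd_sca, bq_sca, map_div₀, map_div₀, map_pow, div_pow, ← hξ] at *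
      rw [div_le_iff₀ (by positivity)] at h1
      refine h1.trans (le_of_eq ?_)
      field_simp
    have h4 : v (4 : K) ≠ 0 := v.ne_zero_iff.2 h4K
    have := lin_core hu hX bα bβ bt bw hs' hcw (hC.one_le v) hν h4 hbnd
    refine this.trans ?_
    have h0 : 0 ≤ (thC K v * A v) ^ 30 * C v * ν * v (DD α β w ![1, t]) * max 1 (v t) := by
      have h1 := (hΘc.pow 30).one_le v
      have h2 := hC.one_le v
      have h3 := v.nonneg (DD α β w ![1, t])
      positivity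
    calc (thC K v * A v) ^ 30 * C v / v 4 * ν * v (DD α β w ![1, t]) * max 1 (v t) =
          ((thC K v * A v) ^ 30 * C v * ν * v (DD α β w ![1, t]) * max 1 (v t)) * (1 / v 4) := by ring
      _ ≤ ((thC K v * A v) ^ 30 * C v * ν * v (DD α β w ![1, t]) * max 1 (v t)) *
          max 1 (1 / v 4) := mul_le_mul_of_nonneg_left (le_max_right _ _) h0
      _ = _ := by ring
  refine ⟨fun v hv hα hβ => ?_, fun v hv hα hβ => ?_⟩
  · refine main v ((n : ℝ) ^ 2) (one_le_pow₀ hn1) ?_ hα hβ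
    intro a ha hai k
    have := (hq a s n hn ha k).1 v hv hai
    rw [← pow_mul]
    exact this
  · have := main v 1 le_rfl (by
      intro a ha hai k
      have := (hq a s n hn ha k).2 v hv hai
      rw [one_pow, mul_one]
      exact this) hα hβ
    rw [mul_one] at this
    exact this

end Pool.Agent.H66.TK
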