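import Pool.Agent.H66.TK.PrjC
import Pool.Agent.H66.TK.Mov
import Pool.Agent.H66.TK.Lin
import Pool.Agent.H65.TK.Geo
import Pool.Agent.H31.TK.Str
import Pool.Agent.H27.TK.Lis
import Pool.Agent.H27.TK.Zar
import Pool.Agent.H27.TK.Irr
import Pool.Agent.H64.TK.Ord
import Pool.Agent.H64.TK.Prd
import Pool.Agent.H80.TK.TAN
import Pool.Agent.H80.TK.TBN

/-! # Project TK: the theorem (helpers 66, 65, 31, 27, 64, 80) -/

set_option autoImplicit false

namespace Pool.Agent.H66.TK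

theorem nul0 : Pool.Agent.H65.TK.S_NUL0 := fun K _ _ τ ι _ _ f g h R hR =>
  Pool.Agent.H65.TK.nul' K τ ι f g h R hR

theorem str0 : S_STR :=
  Pool.Agent.H31.TK.str
    (Pool.Agent.H27.TK.lis (scl Pool.Agent.Q121.TT.trn) lin)
    (Pool.Agent.H65.TK.geo nul0 Pool.Agent.H31.TK.bdw)

theorem tan0 : S_TAN :=
  Pool.Agent.H80.TK.tan str0 Pool.Agent.H64.TK.ord
    (Pool.Agent.H65.TK.smo nul0 Pool.Agent.H31.TK.bdw) Pool.Agent.H64.TK.prd

theorem tbn0 : S_TBN := Pool.Agent.H80.TK.tbn str0 Pool.Agent.H64.TK.ord Pool.Agent.H64.TK.prd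

theorem zar0 : S_ZAR := Pool.Agent.H27.TK.zar tbn0 mov Pool.Agent.H27.TK.irr

theorem mzp : S_MZP := prj tan0 zar0

end Pool.Agent.H66.TK
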