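import Pool.Agent.H66.TK.Stm

/-! # Project TK, part PRJ: the charts of the projective surface -/

set_option autoImplicit false
set_option linter.unusedSimpArgs false

open MvPolynomial

namespace Pool.Agent.H66.TK

/-- exchange of the two coordinates -/
def sw {R : Type} (e : Bool) (x : Fin 2 → R) : Fin 2 → R := if e then ![x 1, x 0] else x

/-- the coefficients in the coordinates of a chart -/
def chA {R : Type} (e₁ e₂ : Bool) {k : ℕ} (a : Fin k → Fin k → R) : Fin k → Fin k → R :=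
  fun i j => a (if e₁ then i.rev else i) (if e₂ then j.rev else j)

theorem sw_sw {R : Type} (e : Bool) (x : Fin 2 → R) : sw e (sw e x) = x := by
  cases e
  · rfl
  · funext i
    fin_cases i <;> rfl

theorem sw_ne {R : Type} [Zero R] (e : Bool) {x : Fin 2 → R} (hx : x ≠ 0) : sw e x ≠ 0 := by
  intro h
  apply hx
  have := congrArg (sw e) h
  rw [sw_sw] at this
  rw [this]
  cases e
  · rfl
  · funext i
    fin_cases i <;> rfl

theorem tr_ch {R : Type} (e₁ e₂ : Bool) {k : ℕ} (a : Fin k → Fin k → R) :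
    tr (chA e₁ e₂ a) = chA e₂ e₁ (tr a) := rfl

theorem ex_ch {K E : Type} [Field K] [Field E] (τ : K →+* E) (e₁ e₂ : Bool) {k : ℕ}
    (a : Fin k → Fin k → K) : ex τ (chA e₁ e₂ a) = chA e₁ e₂ (ex τ a) := rfl

section ring
variable {R : Type} [CommRing R]

theorem FF_ch (e₁ e₂ : Bool) (a : Fin 3 → Fin 3 → R) (b : Fin 4 → Fin 4 → R) (w : R)
    (x y : Fin 2 → R) :
    FF (chA e₁ e₂ a) (chA e₁ e₂ b) w x y = FF a b w (sw e₁ x) (sw e₂ y) := by
  cases e₁ <;> cases e₂ <;>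
    simp [FF, cub, ax, bx, q2, q3, chA, sw, Fin.rev] <;> ring

theorem Fw_ch (e₁ e₂ : Bool) (a : Fin 3 → Fin 3 → R) (w : R) (x y : Fin 2 → R) :
    Fw (chA e₁ e₂ a) w x y = Fw a w (sw e₁ x) (sw e₂ y) := by
  cases e₁ <;> cases e₂ <;>
    simp [Fw, cw, ax, q2, chA, sw, Fin.rev] <;> ring

theorem c0_ch (e₂ : Bool) (a : Fin 3 → Fin 3 → R) (b : Fin 4 → Fin 4 → R) (w : R)
    (x y : Fin 2 → R) :
    c0 (ax (chA false e₂ a) y) (bx (chA false e₂ b) y) w x = c0 (ax a (sw e₂ y)) (bx b (sw e₂ y)) w x ∧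
    c1 (ax (chA false e₂ a) y) (bx (chA false e₂ b) y) w x = c1 (ax a (sw e₂ y)) (bx b (sw e₂ y)) w x := by
  cases e₂ <;> constructor <;>
    simp [c0, c1, ax, bx, q2, q3, chA, sw, Fin.rev] <;> ring

theorem c0_ch' (e₂ : Bool) (a : Fin 3 → Fin 3 → R) (b : Fin 4 → Fin 4 → R) (w : R)
    (x y : Fin 2 → R) :
    c0 (ax (chA true e₂ a) y) (bx (chA true e₂ b) y) w x =
      c1 (ax a (sw e₂ y)) (bx b (sw e₂ y)) w (sw true x) ∧
    c1 (ax (chA true e₂ a) y) (bx (chA true e₂ b) y) w x =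
      c0 (ax a (sw e₂ y)) (bx b (sw e₂ y)) w (sw true x) := by
  cases e₂ <;> constructor <;>
    simp [c0, c1, ax, bx, q2, q3, chA, sw, Fin.rev] <;> ring

/-- both derivatives vanish in one chart if and only if they do in the other one -/
theorem c_ch (e₁ e₂ : Bool) (a : Fin 3 → Fin 3 → R) (b : Fin 4 → Fin 4 → R) (w : R)
    (x y : Fin 2 → R) (h0 : c0 (ax (chA e₁ e₂ a) y) (bx (chA e₁ e₂ b) y) w x = 0)
    (h1 : c1 (ax (chA e₁ e₂ a) y) (bx (chA e₁ e₂ b) y) w x = 0) :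
    c0 (ax a (sw e₂ y)) (bx b (sw e₂ y)) w (sw e₁ x) = 0 ∧
      c1 (ax a (sw e₂ y)) (bx b (sw e₂ y)) w (sw e₁ x) = 0 := by
  cases e₁
  · rw [(c0_ch e₂ a b w x y).1] at h0
    rw [(c0_ch e₂ a b w x y).2] at h1
    exact ⟨h0, h1⟩
  · rw [(c0_ch' e₂ a b w x y).1] at h0
    rw [(c0_ch' e₂ a b w x y).2] at h1
    exact ⟨h1, h0⟩

end ring

theorem NoLine.ch {K : Type} [Field K] {a : Fin 3 → Fin 3 → K} {b : Fin 4 → Fin 4 → K}
    (h : NoLine a b) (e₁ e₂ : Bool) : NoLine (chA e₁ e₂ a) (chA e₁ e₂ b) := by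
  intro y hy l m
  rw [ex_ch, ex_ch]
  cases e₁
  · obtain ⟨x, hx⟩ := h (sw e₂ y) (sw_ne e₂ hy) l m
    refine ⟨x, ?_⟩
    rw [FF_ch]
    exact hx
  · obtain ⟨x, hx⟩ := h (sw e₂ y) (sw_ne e₂ hy) m l
    refine ⟨sw true x, ?_⟩
    rw [FF_ch, sw_sw]
    have : l * sw true x 0 + m * sw true x 1 = m * x 0 + l * x 1 := by
      show l * x 1 + m * x 0 = _
      ring
    rw [this]
    exact hx

theorem Good.ch {K : Type} [Field K] {a : Fin 3 → Fin 3 → K} {b : Fin 4 → Fin 4 → K}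
    (h : Good a b) (e₁ e₂ : Bool) : Good (chA e₁ e₂ a) (chA e₁ e₂ b) := by
  refine ⟨?_, h.line₁.ch e₁ e₂, ?_⟩
  · intro w x y hx hy h0 h1 h2 h3 h4 h5
    rw [ex_ch, ex_ch] at h2 h3 h4 h5
    rw [ex_ch, ex_ch, FF_ch] at h0
    rw [ex_ch, Fw_ch] at h1
    rw [tr_ch, tr_ch] at h4 h5
    obtain ⟨k1, k2⟩ := c_ch e₁ e₂ _ _ w x y h2 h3
    obtain ⟨k3, k4⟩ := c_ch e₂ e₁ _ _ w y x h4 h5
    exact h.smooth w (sw e₁ x) (sw e₂ y) (sw_ne e₁ hx) (sw_ne e₂ hy) h0 h1 k1 k2 k3 k4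
  · rw [tr_ch, tr_ch]
    exact h.line₂.ch e₂ e₁

/-! ### Homogeneity -/

section hom
variable {R : Type} [CommRing R]

theorem FF_sc (a : Fin 3 → Fin 3 → R) (b : Fin 4 → Fin 4 → R) (w l m : R) (x y : Fin 2 → R) :
    FF a b (l * m * w) ![l * x 0, l * x 1] ![m * y 0, m * y 1] = (l * m) ^ 3 * FF a b w x y := by
  simp [FF, cub, ax, bx, q2, q3]
  ring

theorem Fw_sc (a : Fin 3 → Fin 3 → R) (w l m : R) (x y : Fin 2 → R) :
    Fw a (l * m * w) ![l * x 0, l * x 1] ![m * y 0, m * y 1] = (l * m) ^ 2 * Fw a w x y := by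
  simp [Fw, cw, ax, q2]
  ring

end hom

/-! ### The equation -/

section eq
variable {K : Type} [Field K]

theorem eval₂_eqn {E : Type} [Field E] (τ : K →+* E) (a : Fin 3 → Fin 3 → K) (b : Fin 4 → Fin 4 → K)
    (p : Fin 5 → E) :
    eval₂ τ p (eqn a b) = FF (ex τ a) (ex τ b) (p 0) ![p 1, p 2] ![p 3, p 4] := by
  simp [eqn, FF, cub, ax, bx, q2, q3, ex]

theorem eval_eqn (a : Fin 3 → Fin 3 → K) (b : Fin 4 → Fin 4 → K) (p : Fin 5 → K) :
    eval p (eqn a b) = FF a b (p 0) ![p 1, p 2] ![p 3, p 4] := by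
  simp [eqn, FF, cub, ax, bx, q2, q3]

theorem eval_eqn_sc (a : Fin 3 → Fin 3 → K) (b : Fin 4 → Fin 4 → K) (p : Fin 5 → K) (l m : K) :
    eval (sc l m p) (eqn a b) = (l * m) ^ 3 * eval p (eqn a b) := by
  rw [eval_eqn, eval_eqn, ← FF_sc]
  rfl

/-- the polynomials in `w, x, y` of degree at most two in `w` -/
noncomputable def low (h : Fin 3 → MvPolynomial (Fin 4) K) : MvPolynomial (Fin 5) K :=
  rename Fin.succ (h 0) + X 0 * rename Fin.succ (h 1) + X 0 ^ 2 * rename Fin.succ (h 2)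

theorem q2_map {R S : Type} [CommRing R] [CommRing S] (φ : R →+* S) (c : Fin 3 → R) (x : Fin 2 → R) :
    φ (q2 c x) = q2 (fun i => φ (c i)) (fun i => φ (x i)) := by
  simp only [q2, map_add, map_mul, map_pow]

theorem q3_map {R S : Type} [CommRing R] [CommRing S] (φ : R →+* S) (c : Fin 4 → R) (x : Fin 2 → R) :
    φ (q3 c x) = q3 (fun i => φ (c i)) (fun i => φ (x i)) := by
  simp only [q3, map_add, map_mul, map_pow]

theorem succ_vec1 : (fun i => (rename (Fin.succ : Fin 4 → Fin 5)).toRingHom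
    ((![X 0, X 1] : Fin 2 → MvPolynomial (Fin 4) K) i)) = ![X 1, X 2] := by
  funext i
  fin_cases i
  · exact rename_X _ _
  · exact rename_X _ _

theorem succ_vec2 : (fun i => (rename (Fin.succ : Fin 4 → Fin 5)).toRingHom
    ((![X 2, X 3] : Fin 2 → MvPolynomial (Fin 4) K) i)) = ![X 3, X 4] := by
  funext i
  fin_cases i
  · exact rename_X _ _
  · exact rename_X _ _

/-- the equation as a polynomial in `w` -/
theorem eqn_form (a : Fin 3 → Fin 3 → K) (b : Fin 4 → Fin 4 → K) : ∃ A B : MvPolynomial (Fin 4) K,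
    eqn a b = X 0 ^ 3 + rename Fin.succ A * X 0 + rename Fin.succ B := by
  refine ⟨q2 (fun i => q2 (fun j => C (a i j)) ![X 2, X 3]) ![X 0, X 1],
    q3 (fun i => q3 (fun j => C (b i j)) ![X 2, X 3]) ![X 0, X 1], ?_⟩
  have hA : rename (Fin.succ : Fin 4 → Fin 5)
      (q2 (fun i => q2 (fun j => C (a i j)) ![X 2, X 3]) ![X 0, X 1] : MvPolynomial (Fin 4) K) =
      q2 (fun i => q2 (fun j => C (a i j)) ![X 3, X 4]) ![X 1, X 2] := by
    have h1 := q2_map (rename (Fin.succ : Fin 4 → Fin 5)).toRingHom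
      (fun i => q2 (fun j => C (a i j)) ![X 2, X 3]) (![X 0, X 1] : Fin 2 → MvPolynomial (Fin 4) K)
    rw [succ_vec1] at h1
    refine h1.trans ?_
    congr 1
    funext i
    have h2 := q2_map (rename (Fin.succ : Fin 4 → Fin 5)).toRingHom
      (fun j => C (a i j)) (![X 2, X 3] : Fin 2 → MvPolynomial (Fin 4) K)
    rw [succ_vec2] at h2
    refine h2.trans ?_
    congr 1
    funext j
    exact rename_C _ _
  have hB : rename (Fin.succ : Fin 4 → Fin 5)
      (q3 (fun i => q3 (fun j => C (b i j)) ![X 2, X 3]) ![X 0, X 1] : MvPolynomial (Fin 4) K) =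
      q3 (fun i => q3 (fun j => C (b i j)) ![X 3, X 4]) ![X 1, X 2] := by
    have h1 := q3_map (rename (Fin.succ : Fin 4 → Fin 5)).toRingHom
      (fun i => q3 (fun j => C (b i j)) ![X 2, X 3]) (![X 0, X 1] : Fin 2 → MvPolynomial (Fin 4) K)
    rw [succ_vec1] at h1
    refine h1.trans ?_
    congr 1
    funext i
    have h2 := q3_map (rename (Fin.succ : Fin 4 → Fin 5)).toRingHom
      (fun j => C (b i j)) (![X 2, X 3] : Fin 2 → MvPolynomial (Fin 4) K)
    rw [succ_vec2] at h2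
    refine h2.trans ?_
    congr 1
    funext j
    exact rename_C _ _
  rw [hA, hB]
  rfl

/-- division by the equation -/
theorem decomp (a : Fin 3 → Fin 3 → K) (b : Fin 4 → Fin 4 → K) (f : MvPolynomial (Fin 5) K) :
    ∃ (h : Fin 3 → MvPolynomial (Fin 4) K) (Q : MvPolynomial (Fin 5) K), f = low h + eqn a b * Q := by
  have hX : ∀ i : Fin 4, (X i.succ : MvPolynomial (Fin 5) K) = rename Fin.succ (X i) := by
    intro i
    rw [rename_X]
  obtain ⟨A, B, hAB⟩ := eqn_form a b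
  induction f using MvPolynomial.induction_on with
  | C r => exact ⟨![C r, 0, 0], 0, by simp [low]⟩
  | add p q hp hq =>
    obtain ⟨h, Q, e⟩ := hp
    obtain ⟨h', Q', e'⟩ := hq
    refine ⟨fun i => h i + h' i, Q + Q', ?_⟩
    rw [e, e']
    simp only [low, map_add]
    ring
  | mul_X p i hp =>
    obtain ⟨h, Q, e⟩ := hp
    cases i using Fin.cases with
    | zero =>
      refine ⟨![-(h 2 * B), h 0 - h 2 * A, h 1], X 0 * Q + rename Fin.succ (h 2), ?_⟩
      rw [e]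
      simp only [low, Matrix.cons_val_zero, Matrix.cons_val_one, Matrix.cons_val, map_neg, map_sub,
        map_mul, hAB]
      ring
    | succ j =>
      refine ⟨fun k => h k * X j, X j.succ * Q, ?_⟩
      rw [e, hX]
      simp only [low, map_mul]
      ring

end eq

end Pool.Agent.H66.TK
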