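import Pool.Agent.H66.TK.PrjA

/-! # Project TK, part PRJ: points, neighbourhoods and ideals -/

set_option autoImplicit false
set_option linter.unusedSimpArgs false
set_option linter.unusedSectionVars false

open MvPolynomial Filter Topology

namespace Pool.Agent.H66.TK

/-- the point with the affine coordinates `w, t, r` in a chart -/
def pt {E : Type} [CommRing E] (e₁ e₂ : Bool) (l m w t r : E) : Fin 5 → E :=
  ![l * m * w, l * (if e₁ then t else 1), l * (if e₁ then 1 else t), m * (if e₂ then r else 1),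
    m * (if e₂ then 1 else r)]

section alg
variable {E : Type} [Field E]

theorem pt_isPt (e₁ e₂ : Bool) {l m : E} (hl : l ≠ 0) (hm : m ≠ 0) (w t r : E) :
    IsPt (pt e₁ e₂ l m w t r) := by
  constructor
  · cases e₁
    · left; simpa [pt] using hl
    · right; simpa [pt] using hl
  · cases e₂
    · left; simpa [pt] using hm
    · right; simpa [pt] using hm

theorem sc_pt (e₁ e₂ : Bool) (l m l' m' w t r : E) :
    sc l' m' (pt e₁ e₂ l m w t r) = pt e₁ e₂ (l' * l) (m' * m) w t r := by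
  funext i
  cases e₁ <;> cases e₂ <;> fin_cases i <;> simp [sc, pt] <;> ring

theorem sc_sc (l m l' m' : E) (p : Fin 5 → E) : sc l m (sc l' m' p) = sc (l * l') (m * m') p := by
  funext i
  fin_cases i <;> simp [sc] <;> ring

theorem sc_one (p : Fin 5 → E) : sc 1 1 p = p := by
  funext i
  fin_cases i <;> simp [sc]

theorem map_sc {L : Type} [Field L] (σ : E →+* L) (l m : E) (p : Fin 5 → E) :
    (fun i => σ (sc l m p i)) = sc (σ l) (σ m) (fun i => σ (p i)) := by
  funext i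
  fin_cases i <;> simp [sc]

theorem map_pt {L : Type} [Field L] (σ : E →+* L) (e₁ e₂ : Bool) (l m w t r : E) :
    (fun i => σ (pt e₁ e₂ l m w t r i)) = pt e₁ e₂ (σ l) (σ m) (σ w) (σ t) (σ r) := by
  funext i
  cases e₁ <;> cases e₂ <;> fin_cases i <;> simp [pt]

/-- every point lies in a chart -/
theorem cover {p : Fin 5 → E} (hp : IsPt p) : ∃ (e₁ e₂ : Bool) (l m w t r : E), l ≠ 0 ∧ m ≠ 0 ∧
    p = pt e₁ e₂ l m w t r := by
  obtain ⟨h1, h2⟩ := hp
  have k1 : ∃ (e₁ : Bool) (l t : E), l ≠ 0 ∧ p 1 = l * (if e₁ then t else 1) ∧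
      p 2 = l * (if e₁ then 1 else t) := by
    rcases h1 with h | h
    · exact ⟨false, p 1, p 2 / p 1, h, by simp, by simp; field_simp⟩
    · exact ⟨true, p 2, p 1 / p 2, h, by simp; field_simp, by simp⟩
  have k2 : ∃ (e₁ : Bool) (l t : E), l ≠ 0 ∧ p 3 = l * (if e₁ then t else 1) ∧
      p 4 = l * (if e₁ then 1 else t) := by
    rcases h2 with h | h
    · exact ⟨false, p 3, p 4 / p 3, h, by simp, by simp; field_simp⟩
    · exact ⟨true, p 4, p 3 / p 4, h, by simp; field_simp, by simp⟩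
  obtain ⟨e₁, l, t, hl, a1, a2⟩ := k1
  obtain ⟨e₂, m, r, hm, b1, b2⟩ := k2
  refine ⟨e₁, e₂, l, m, p 0 / (l * m), t, r, hl, hm, ?_⟩
  funext i
  fin_cases i
  · show p 0 = l * m * (p 0 / (l * m))
    field_simp
  · exact a1
  · exact a2
  · exact b1
  · exact b2

theorem FF_pt (e₁ e₂ : Bool) (a : Fin 3 → Fin 3 → E) (b : Fin 4 → Fin 4 → E) (l m w t r : E) :
    FF a b (pt e₁ e₂ l m w t r 0) ![pt e₁ e₂ l m w t r 1, pt e₁ e₂ l m w t r 2]
      ![pt e₁ e₂ l m w t r 3, pt e₁ e₂ l m w t r 4] =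
      (l * m) ^ 3 * FF (chA e₁ e₂ a) (chA e₁ e₂ b) w ![1, t] ![1, r] := by
  rw [FF_ch]
  have := FF_sc a b w l m (sw e₁ ![1, t]) (sw e₂ ![1, r])
  rw [← this]
  cases e₁ <;> cases e₂ <;> rfl

theorem Fw_pt (e₁ e₂ : Bool) (a : Fin 3 → Fin 3 → E) (l m w t r : E) :
    Fw a (pt e₁ e₂ l m w t r 0) ![pt e₁ e₂ l m w t r 1, pt e₁ e₂ l m w t r 2]
      ![pt e₁ e₂ l m w t r 3, pt e₁ e₂ l m w t r 4] =
      (l * m) ^ 2 * Fw (chA e₁ e₂ a) w ![1, t] ![1, r] := by
  rw [Fw_ch]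
  have := Fw_sc a w l m (sw e₁ ![1, t]) (sw e₂ ![1, r])
  rw [← this]
  cases e₁ <;> cases e₂ <;> rfl

theorem IsPt.map {L : Type} [Field L] (σ : E →+* L) {p : Fin 5 → E} (hp : IsPt p) :
    IsPt fun i => σ (p i) := by
  obtain ⟨h1, h2⟩ := hp
  exact ⟨h1.imp (fun h => (map_ne_zero σ).2 h) fun h => (map_ne_zero σ).2 h,
    h2.imp (fun h => (map_ne_zero σ).2 h) fun h => (map_ne_zero σ).2 h⟩

theorem IsPt.sc {p : Fin 5 → E} (hp : IsPt p) {l m : E} (hl : l ≠ 0) (hm : m ≠ 0) :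
    IsPt (sc l m p) := by
  obtain ⟨h1, h2⟩ := hp
  exact ⟨h1.imp (fun h => mul_ne_zero hl h) fun h => mul_ne_zero hl h,
    h2.imp (fun h => mul_ne_zero hm h) fun h => mul_ne_zero hm h⟩

/-- proportional over an extension -/
theorem same_of_map {L : Type} [Field L] (σ : E →+* L) {p q : Fin 5 → E} (hp : IsPt p) (hq : IsPt q)
    {l m : L} (hl : l ≠ 0) (hm : m ≠ 0) (h : (fun i => σ (p i)) = sc l m fun i => σ (q i)) :
    ∃ l' m' : E, l' ≠ 0 ∧ m' ≠ 0 ∧ p = sc l' m' q := by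
  have e0 : σ (p 0) = l * m * σ (q 0) := congrFun h 0
  have e1 : σ (p 1) = l * σ (q 1) := congrFun h 1
  have e2 : σ (p 2) = l * σ (q 2) := congrFun h 2
  have e3 : σ (p 3) = m * σ (q 3) := congrFun h 3
  have e4 : σ (p 4) = m * σ (q 4) := congrFun h 4
  have key : ∀ {x y x' y' : E} {c : L}, c ≠ 0 → (y ≠ 0 ∨ y' ≠ 0) → σ x = c * σ y →
      σ x' = c * σ y' → ∃ d : E, d ≠ 0 ∧ σ d = c := by
    intro x y x' y' c hc hy hx hx'
    rcases hy with hy | hy
    · have hy' : σ y ≠ 0 := (map_ne_zero σ).2 hy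
      have : σ (x / y) = c := by
        rw [map_div₀, hx]
        field_simp
      refine ⟨x / y, ?_, this⟩
      rintro h0
      rw [h0, map_zero] at this
      exact hc this.symm
    · have hy' : σ y' ≠ 0 := (map_ne_zero σ).2 hy
      have : σ (x' / y') = c := by
        rw [map_div₀, hx']
        field_simp
      refine ⟨x' / y', ?_, this⟩
      rintro h0
      rw [h0, map_zero] at this
      exact hc this.symm
  obtain ⟨l', hl', hll⟩ := key hl hq.1 e1 e2
  obtain ⟨m', hm', hmm⟩ := key hm hq.2 e3 e4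
  refine ⟨l', m', hl', hm', ?_⟩
  funext i
  apply σ.injective
  have := congrFun h i
  rw [this]
  have h2 := congrFun (map_sc σ l' m' q) i
  rw [h2, hll, hmm]

end alg

section top
variable {K L : Type} [Field K] [NontriviallyNormedField L] (σ : K →+* L)

theorem cont_sc (l m : L) : Continuous fun z : Fin 5 → L => sc l m z := by
  refine continuous_pi fun i => ?_
  fin_cases i
  · show Continuous fun z : Fin 5 → L => l * m * z 0
    fun_prop
  · show Continuous fun z : Fin 5 → L => l * z 1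
    fun_prop
  · show Continuous fun z : Fin 5 → L => l * z 2
    fun_prop
  · show Continuous fun z : Fin 5 → L => m * z 3
    fun_prop
  · show Continuous fun z : Fin 5 → L => m * z 4
    fun_prop

/-- the points proportional to `z` are closed -/
theorem sep {x z : Fin 5 → L} (hx : IsPt x) (hne : ∀ l m : L, l ≠ 0 → m ≠ 0 → x ≠ sc l m z) :
    ∃ U ∈ nhds x, ∀ l m : L, l ≠ 0 → m ≠ 0 → sc l m z ∉ U := by
  by_contra hcon
  push Not at hcon
  have hc : ∀ G : (Fin 5 → L) → L, Continuous G → (∀ l m : L, l ≠ 0 → m ≠ 0 → G (sc l m z) = 0) →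
      G x = 0 := by
    intro G hG h0
    by_contra h1
    obtain ⟨l, m, hl, hm, h2⟩ := hcon {y | G y ≠ 0} (hG.continuousAt.eventually_ne h1)
    exact h2 (h0 l m hl hm)
  have hne1 : ∀ G : (Fin 5 → L) → L, Continuous G → G x ≠ 0 →
      ∃ l m : L, l ≠ 0 ∧ m ≠ 0 ∧ G (sc l m z) ≠ 0 := by
    intro G hG h1
    obtain ⟨l, m, hl, hm, h2⟩ := hcon {y | G y ≠ 0} (hG.continuousAt.eventually_ne h1)
    exact ⟨l, m, hl, hm, h2⟩
  obtain ⟨hx1, hx2⟩ := hx
  have key : ∀ i ∈ ({1, 2} : Set (Fin 5)), ∀ j ∈ ({3, 4} : Set (Fin 5)), x i ≠ 0 → x j ≠ 0 → False := by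
    intro i hi j hj hxi hxj
    have hsi : ∀ l m : L, sc l m z i = l * z i := by
      intro l m
      rcases hi with rfl | hi
      · rfl
      · rw [Set.mem_singleton_iff.1 hi]; rfl
    have hsj : ∀ l m : L, sc l m z j = m * z j := by
      intro l m
      rcases hj with rfl | hj
      · rfl
      · rw [Set.mem_singleton_iff.1 hj]; rfl
    have hzi : z i ≠ 0 := by
      obtain ⟨l, m, -, -, h⟩ := hne1 (fun y => y i) (continuous_apply i) hxi
      simp only [hsi] at h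
      exact fun h0 => h (by rw [h0, mul_zero])
    have hzj : z j ≠ 0 := by
      obtain ⟨l, m, -, -, h⟩ := hne1 (fun y => y j) (continuous_apply j) hxj
      simp only [hsj] at h
      exact fun h0 => h (by rw [h0, mul_zero])
    have r0 : x 0 * (z i * z j) - x i * x j * z 0 = 0 :=
      hc (fun y => y 0 * (z i * z j) - y i * y j * z 0) (by fun_prop) fun l m _ _ => by
        show sc l m z 0 * (z i * z j) - sc l m z i * sc l m z j * z 0 = 0
        rw [hsi, hsj]
        show l * m * z 0 * (z i * z j) - l * z i * (m * z j) * z 0 = 0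
        ring
    have r1 : x 1 * z i - x i * z 1 = 0 :=
      hc (fun y => y 1 * z i - y i * z 1) (by fun_prop) fun l m _ _ => by
        show sc l m z 1 * z i - sc l m z i * z 1 = 0
        rw [hsi]
        show l * z 1 * z i - l * z i * z 1 = 0
        ring
    have r2 : x 2 * z i - x i * z 2 = 0 :=
      hc (fun y => y 2 * z i - y i * z 2) (by fun_prop) fun l m _ _ => by
        show sc l m z 2 * z i - sc l m z i * z 2 = 0
        rw [hsi]
        show l * z 2 * z i - l * z i * z 2 = 0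
        ring
    have r3 : x 3 * z j - x j * z 3 = 0 :=
      hc (fun y => y 3 * z j - y j * z 3) (by fun_prop) fun l m _ _ => by
        show sc l m z 3 * z j - sc l m z j * z 3 = 0
        rw [hsj]
        show m * z 3 * z j - m * z j * z 3 = 0
        ring
    have r4 : x 4 * z j - x j * z 4 = 0 :=
      hc (fun y => y 4 * z j - y j * z 4) (by fun_prop) fun l m _ _ => by
        show sc l m z 4 * z j - sc l m z j * z 4 = 0
        rw [hsj]
        show m * z 4 * z j - m * z j * z 4 = 0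
        ring
    apply hne (x i / z i) (x j / z j) (div_ne_zero hxi hzi) (div_ne_zero hxj hzj)
    funext k
    fin_cases k
    · show x 0 = x i / z i * (x j / z j) * z 0
      field_simp
      linear_combination r0
    · show x 1 = x i / z i * z 1
      field_simp
      linear_combination r1
    · show x 2 = x i / z i * z 2
      field_simp
      linear_combination r2
    · show x 3 = x j / z j * z 3
      field_simp
      linear_combination r3
    · show x 4 = x j / z j * z 4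
      field_simp
      linear_combination r4
  rcases hx1 with h1 | h1 <;> rcases hx2 with h2 | h2
  · exact key 1 (by simp) 3 (by simp) h1 h2
  · exact key 1 (by simp) 4 (by simp) h1 h2
  · exact key 2 (by simp) 3 (by simp) h1 h2
  · exact key 2 (by simp) 4 (by simp) h1 h2

variable (a : Fin 3 → Fin 3 → K) (b : Fin 4 → Fin 4 → K)

theorem dvd_clo {x : Fin 5 → L} {f : MvPolynomial (Fin 5) K} (h : eqn a b ∣ f) : f ∈ clo σ a b x := by
  obtain ⟨g, rfl⟩ := h
  refine ⟨Set.univ, Filter.univ_mem, fun p _ h0 _ l m => ?_⟩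
  rw [map_mul, eval_eqn_sc, h0, mul_zero, zero_mul]

/-- ideals at nearby points -/
theorem clo_mono {x : Fin 5 → L} {f : MvPolynomial (Fin 5) K} (hf : f ∈ clo σ a b x) :
    ∃ U ∈ nhds x, ∀ (p : Fin 5 → K) (l m : L), l ≠ 0 → m ≠ 0 → sc l m (fun i => σ (p i)) ∈ U →
      f ∈ clo σ a b fun i => σ (p i) := by
  obtain ⟨U, hU, h⟩ := hf
  obtain ⟨V, hVU, hVo, hxV⟩ := mem_nhds_iff.1 hU
  refine ⟨V, hVo.mem_nhds hxV, fun p l m hl hm hp => ?_⟩
  refine ⟨(fun z => sc l m z) ⁻¹' V, (hVo.preimage (cont_sc l m)).mem_nhds hp, ?_⟩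
  rintro p' h1 h2 ⟨l', m', hl', hm', h3⟩
  refine h p' h1 h2 ⟨l * l', m * m', mul_ne_zero hl hl', mul_ne_zero hm hm', hVU ?_⟩
  rw [← sc_sc]
  exact h3

/-- the ideal of a rational point -/
theorem clo_point {x : Fin 5 → L} {q : Fin 5 → K} (hq : IsPt q) (h0 : eval q (eqn a b) = 0)
    {l m : L} (hl : l ≠ 0) (hm : m ≠ 0) (hx : x = sc l m fun i => σ (q i))
    (hU : ∃ U ∈ nhds x, ∀ p : Fin 5 → K, IsPt p → eval p (eqn a b) = 0 →
      (∃ l m : L, l ≠ 0 ∧ m ≠ 0 ∧ sc l m (fun i => σ (p i)) ∈ U) → ∃ l m : K, p = sc l m q) :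
    clo σ a b x = {f | ∀ l m : K, eval (sc l m q) f = 0} := by
  ext f
  constructor
  · rintro ⟨U, hU, h⟩
    exact h q hq h0 ⟨l, m, hl, hm, by rw [← hx]; exact mem_of_mem_nhds hU⟩
  · intro hf
    obtain ⟨U, hU, h⟩ := hU
    refine ⟨U, hU, fun p h1 h2 h3 l m => ?_⟩
    obtain ⟨l', m', rfl⟩ := h p h1 h2 h3
    rw [sc_sc]
    exact hf _ _

/-- **The trichotomy.** -/
theorem tri {x : Fin 5 → L} (hx : IsPt x) {T : Set (Fin 5 → K)} (hT : T.Finite)
    (hTp : ∀ q ∈ T, IsPt q ∧ eval q (eqn a b) = 0) (G : (Fin 5 → K) → Prop)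
    (hG : ∀ p, G p → ∀ f, f ∈ clo σ a b (fun i => σ (p i)) → eqn a b ∣ f)
    (hGT : ∃ U ∈ nhds x, ∀ p : Fin 5 → K, IsPt p → eval p (eqn a b) = 0 →
      (∃ l m : L, l ≠ 0 ∧ m ≠ 0 ∧ sc l m (fun i => σ (p i)) ∈ U) →
        G p ∨ ∃ q ∈ T, ∃ l m : K, p = sc l m q) :
    clo σ a b x = Set.univ ∨ clo σ a b x = {f | eqn a b ∣ f} ∨
      ∃ q ∈ T, (∃ l m : L, l ≠ 0 ∧ m ≠ 0 ∧ x = sc l m fun i => σ (q i)) ∧
        clo σ a b x = {f | ∀ l m : K, eval (sc l m q) f = 0} := by
  classical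
  by_cases hlim : ∀ U ∈ nhds x, ∃ p, G p ∧ ∃ l m : L, l ≠ 0 ∧ m ≠ 0 ∧ sc l m (fun i => σ (p i)) ∈ U
  · right
    left
    ext f
    constructor
    · intro hf
      obtain ⟨U, hU, h⟩ := clo_mono σ a b hf
      obtain ⟨p, hp, l, m, hl, hm, hp2⟩ := hlim U hU
      exact hG p hp f (h p l m hl hm hp2)
    · exact fun hf => dvd_clo σ a b hf
  · push Not at hlim
    obtain ⟨U₁, hU₁, h₁⟩ := hlim
    obtain ⟨U₂, hU₂, h₂⟩ := hGT
    -- a neighbourhood which avoids the other points of `T`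
    have hsep : ∀ q : Fin 5 → K, ∃ U ∈ nhds x, (∃ l m : L, l ≠ 0 ∧ m ≠ 0 ∧ x = sc l m fun i => σ (q i)) ∨
        ∀ l m : L, l ≠ 0 → m ≠ 0 → sc l m (fun i => σ (q i)) ∉ U := by
      intro q
      by_cases h : ∃ l m : L, l ≠ 0 ∧ m ≠ 0 ∧ x = sc l m fun i => σ (q i)
      · exact ⟨Set.univ, Filter.univ_mem, Or.inl h⟩
      · push Not at h
        obtain ⟨U, hU, h2⟩ := sep (z := fun i => σ (q i)) hx h
        exact ⟨U, hU, Or.inr h2⟩
    choose V hV hV2 using hsep
    have hW : (⋂ q ∈ T, V q) ∈ nhds x := (Filter.biInter_mem hT).2 fun q _ => hV q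
    have hU : U₁ ∩ U₂ ∩ (⋂ q ∈ T, V q) ∈ nhds x :=
      Filter.inter_mem (Filter.inter_mem hU₁ hU₂) hW
    have hnear : ∀ p : Fin 5 → K, IsPt p → eval p (eqn a b) = 0 →
        (∃ l m : L, l ≠ 0 ∧ m ≠ 0 ∧ sc l m (fun i => σ (p i)) ∈ U₁ ∩ U₂ ∩ (⋂ q ∈ T, V q)) →
        ∃ q ∈ T, (∃ l m : K, l ≠ 0 ∧ m ≠ 0 ∧ p = sc l m q) ∧
          ∃ l m : L, l ≠ 0 ∧ m ≠ 0 ∧ x = sc l m fun i => σ (q i) := by
      rintro p hp h0 ⟨l, m, hl, hm, ⟨hm1, hm2⟩, hm3⟩
      rcases h₂ p hp h0 ⟨l, m, hl, hm, hm2⟩ with h | ⟨q, hq, l', m', rfl⟩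
      · exact absurd hm1 (h₁ p h l m hl hm)
      · have hl' : l' ≠ 0 := by
          rintro rfl
          rcases hp.1 with h | h
          · exact h (by show 0 * q 1 = 0; rw [zero_mul])
          · exact h (by show 0 * q 2 = 0; rw [zero_mul])
        have hm' : m' ≠ 0 := by
          rintro rfl
          rcases hp.2 with h | h
          · exact h (by show 0 * q 3 = 0; rw [zero_mul])
          · exact h (by show 0 * q 4 = 0; rw [zero_mul])
        refine ⟨q, hq, ⟨l', m', hl', hm', rfl⟩, ?_⟩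
        rcases hV2 q with h | h
        · exact h
        · exfalso
          apply h (l * σ l') (m * σ m') (mul_ne_zero hl ((map_ne_zero σ).2 hl'))
            (mul_ne_zero hm ((map_ne_zero σ).2 hm'))
          have := Set.mem_iInter₂.1 hm3 q hq
          rw [map_sc, sc_sc] at this
          exact this
    by_cases hex : ∃ q ∈ T, ∃ l m : L, l ≠ 0 ∧ m ≠ 0 ∧ x = sc l m fun i => σ (q i)
    · right
      right
      obtain ⟨q, hq, l, m, hl, hm, hxq⟩ := hex
      refine ⟨q, hq, ⟨l, m, hl, hm, hxq⟩, ?_⟩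
      refine clo_point σ a b (hTp q hq).1 (hTp q hq).2 hl hm hxq ⟨_, hU, ?_⟩
      intro p hp h0 h3
      obtain ⟨q', hq', ⟨l', m', hl', hm', rfl⟩, l₁, m₁, hl₁, hm₁, hx'⟩ := hnear p hp h0 h3
      have e : (fun i => σ (q' i)) = sc (l₁⁻¹ * l) (m₁⁻¹ * m) fun i => σ (q i) := by
        rw [← sc_sc, ← hxq, hx', sc_sc, inv_mul_cancel₀ hl₁, inv_mul_cancel₀ hm₁, sc_one]
      obtain ⟨l₂, m₂, -, -, h5⟩ := same_of_map σ (hTp q' hq').1 (hTp q hq).1
        (mul_ne_zero (inv_ne_zero hl₁) hl) (mul_ne_zero (inv_ne_zero hm₁) hm) e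
      exact ⟨l' * l₂, m' * m₂, by rw [h5, sc_sc]⟩
    · left
      rw [Set.eq_univ_iff_forall]
      intro f
      refine ⟨_, hU, fun p hp h0 h3 l m => ?_⟩
      obtain ⟨q, hq, -, h⟩ := hnear p hp h0 h3
      exact absurd ⟨q, hq, h⟩ hex

end top

end Pool.Agent.H66.TK
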