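import Pool.Agent.H66.TK.PrjB

/-! # Project TK, part PRJ: the theorem for the projective surface -/

set_option autoImplicit false
set_option linter.unusedSimpArgs false
set_option linter.unusedSectionVars false

open MvPolynomial Filter Topology

namespace Pool.Agent.H66.TK

section ev
variable {K : Type} [Field K]

/-- the forms `h i` at the points of a chart -/
noncomputable def qv (e₁ e₂ : Bool) (l m : K) : Fin 4 → MvPolynomial (Fin 2) K :=
  fun j => pt e₁ e₂ (C l) (C m) 0 (X 0) (X 1) j.succ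

theorem eval_qv (e₁ e₂ : Bool) (l m w t r : K) (j : Fin 4) :
    eval ![t, r] (qv e₁ e₂ l m j) = pt e₁ e₂ l m w t r j.succ := by
  cases e₁ <;> cases e₂ <;> fin_cases j <;> simp [qv, pt]

theorem eval_bind (e₁ e₂ : Bool) (l m w t r : K) (h : MvPolynomial (Fin 4) K) :
    eval ![t, r] (bind₁ (qv e₁ e₂ l m) h) = eval (fun j => pt e₁ e₂ l m w t r (Fin.succ j)) h := by
  have h1 : eval ![t, r] (bind₁ (qv e₁ e₂ l m) h) =
      eval (fun j => eval ![t, r] (qv e₁ e₂ l m j)) h := by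
    have := MvPolynomial.eval₂Hom_bind₁ (RingHom.id K) ![t, r] (qv e₁ e₂ l m) h
    exact this
  rw [h1]
  congr 1
  congr 1
  funext j
  exact eval_qv e₁ e₂ l m w t r j

theorem eval_low (h : Fin 3 → MvPolynomial (Fin 4) K) (p : Fin 5 → K) :
    eval p (low h) = eval (fun j => p (Fin.succ j)) (h 0) + p 0 * eval (fun j => p (Fin.succ j)) (h 1) +
      p 0 ^ 2 * eval (fun j => p (Fin.succ j)) (h 2) := by
  simp only [low, map_add, map_mul, map_pow, eval_X, eval_rename]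
  rfl

/-- a polynomial which vanishes at the points of a chart is zero -/
theorem zero_of_chart [CharZero K] (e₁ e₂ : Bool) (h : MvPolynomial (Fin 4) K)
    (h0 : ∀ l m t r : K, l ≠ 0 → m ≠ 0 → eval (fun j => pt e₁ e₂ l m 0 t r (Fin.succ j)) h = 0) :
    h = 0 := by
  have hinf : Infinite K := CharZero.infinite K
  have h1 : h * (X (if e₁ then 1 else 0) * X (if e₂ then 3 else 2)) = 0 := by
    apply MvPolynomial.funext
    intro p
    rw [map_mul, map_mul, eval_X, eval_X, map_zero]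
    by_cases hl : p (if e₁ then 1 else 0) = 0
    · rw [hl, zero_mul, mul_zero]
    by_cases hm : p (if e₂ then 3 else 2) = 0
    · rw [hm, mul_zero, mul_zero]
    have h2 := h0 (p (if e₁ then 1 else 0)) (p (if e₂ then 3 else 2))
      (p (if e₁ then 0 else 1) / p (if e₁ then 1 else 0))
      (p (if e₂ then 2 else 3) / p (if e₂ then 3 else 2)) hl hm
    have h3 : (fun j : Fin 4 => pt e₁ e₂ (p (if e₁ then 1 else 0)) (p (if e₂ then 3 else 2)) 0
      (p (if e₁ then 0 else 1) / p (if e₁ then 1 else 0))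
      (p (if e₂ then 2 else 3) / p (if e₂ then 3 else 2)) (Fin.succ j)) = p := by
      funext j
      cases e₁ <;> cases e₂ <;> fin_cases j <;> simp [pt] at hl hm ⊢ <;> field_simp
    rw [h3] at h2
    rw [h2, zero_mul]
  rcases mul_eq_zero.1 h1 with h2 | h2
  · exact h2
  · exfalso
    rcases mul_eq_zero.1 h2 with h3 | h3
    · exact X_ne_zero _ h3
    · exact X_ne_zero _ h3

end ev

section main
variable {K L : Type} [Field K] [CharZero K] [NontriviallyNormedField L] (σ : K →+* L)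
  (a : Fin 3 → Fin 3 → K) (b : Fin 4 → Fin 4 → K)

/-- from the density in a chart to the ideal -/
theorem gp (e₁ e₂ : Bool) {l m w t r : K} (hl : l ≠ 0) (hm : m ≠ 0)
    (hD : DenseAt σ (chA e₁ e₂ a) (chA e₁ e₂ b) w t r) {f : MvPolynomial (Fin 5) K}
    (hf : f ∈ clo σ a b fun i => σ (pt e₁ e₂ l m w t r i)) : eqn a b ∣ f := by
  obtain ⟨h, Q, hfQ⟩ := decomp a b f
  obtain ⟨U, hU, hfU⟩ := hf
  -- the neighbourhood in the chart
  obtain ⟨ε, hε, hball⟩ : ∃ ε : ℝ, 0 < ε ∧ ∀ w' t' r' : K, ‖σ w' - σ w‖ < ε → ‖σ t' - σ t‖ < ε →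
      ‖σ r' - σ r‖ < ε → (fun i => σ (pt e₁ e₂ l m w' t' r' i)) ∈ U := by
    have hc : Continuous fun z : L × L × L => pt e₁ e₂ (σ l) (σ m) z.1 z.2.1 z.2.2 := by
      refine continuous_pi fun i => ?_
      cases e₁ <;> cases e₂ <;> fin_cases i <;> simp [pt] <;> fun_prop
    have h1 : (fun z : L × L × L => pt e₁ e₂ (σ l) (σ m) z.1 z.2.1 z.2.2) ⁻¹' U ∈
        nhds (σ w, σ t, σ r) := by
      apply hc.continuousAt.preimage_mem_nhds
      show U ∈ nhds (pt e₁ e₂ (σ l) (σ m) (σ w) (σ t) (σ r))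
      rw [← map_pt]
      exact hU
    obtain ⟨ε, hε, hb⟩ := Metric.mem_nhds_iff.1 h1
    refine ⟨ε, hε, fun w' t' r' k1 k2 k3 => ?_⟩
    rw [map_pt]
    refine hb (show (σ w', σ t', σ r') ∈ _ from ?_)
    rw [Metric.mem_ball, Prod.dist_eq, Prod.dist_eq, max_lt_iff, max_lt_iff, dist_eq_norm,
      dist_eq_norm, dist_eq_norm]
    exact ⟨k1, k2, k3⟩
  have hz : ∀ l' m' : K, l' ≠ 0 → m' ≠ 0 → ∀ i : Fin 3,
      C ((l' * m') ^ (i : ℕ)) * bind₁ (qv e₁ e₂ l' m') (h i) = 0 := by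
    intro l' m' hl' hm'
    have := hD ε hε (fun i => C ((l' * m') ^ (i : ℕ)) * bind₁ (qv e₁ e₂ l' m') (h i)) (by
      intro w' t' r' k0 k1 k2 k3
      have h2 := hfU (pt e₁ e₂ l m w' t' r') (pt_isPt e₁ e₂ hl hm w' t' r') (by
        rw [eval_eqn, FF_pt, k0, mul_zero]) ⟨1, 1, one_ne_zero, one_ne_zero, by
          rw [sc_one]; exact hball w' t' r' k1 k2 k3⟩ (l' / l) (m' / m)
      rw [sc_pt, div_mul_cancel₀ _ hl, div_mul_cancel₀ _ hm, hfQ, map_add, map_mul] at h2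
      rw [show eval (pt e₁ e₂ l' m' w' t' r') (eqn a b) = 0 by
        rw [eval_eqn, FF_pt, k0, mul_zero], zero_mul, add_zero, eval_low] at h2
      simp only [map_mul, eval_C, eval_bind e₁ e₂ l' m' w' t' r']
      rw [← h2]
      show (l' * m') ^ 0 * _ + (l' * m') ^ 1 * _ * w' + (l' * m') ^ 2 * _ * w' ^ 2 =
        _ + l' * m' * w' * _ + (l' * m' * w') ^ 2 * _
      ring)
    intro i
    exact congrFun this i
  have hh : h = 0 := by
    funext i
    refine zero_of_chart e₁ e₂ (h i) fun l' m' t' r' hl' hm' => ?_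
    have h1 := congrArg (eval ![t', r']) (hz l' m' hl' hm' i)
    rw [map_mul, eval_C, map_zero, eval_bind e₁ e₂ l' m' 0 t' r'] at h1
    exact (mul_eq_zero.1 h1).resolve_left (pow_ne_zero _ (mul_ne_zero hl' hm'))
  refine ⟨Q, ?_⟩
  rw [hfQ, hh]
  simp [low]

end main

theorem dw_id {K : Type} [Field K] (a : Fin 3 → Fin 3 → K) (p : Fin 5 → K) :
    dw (RingHom.id K) a p = Fw a (p 0) ![p 1, p 2] ![p 3, p 4] := rfl

theorem Fw_map {K E : Type} [Field K] [Field E] (τ : K →+* E) (a : Fin 3 → Fin 3 → K) (p : Fin 5 → K) :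
    dw τ a (fun i => τ (p i)) = τ (dw (RingHom.id K) a p) := by
  simp only [dw, Fw, cw, ax, q2, ex, Matrix.cons_val_zero, Matrix.cons_val_one, map_add, map_mul,
    map_pow, map_ofNat, RingHom.id_apply]

theorem dw_sc {K E : Type} [Field K] [Field E] (τ : K →+* E) (a : Fin 3 → Fin 3 → K) (l m : E)
    (p : Fin 5 → E) : dw τ a (sc l m p) = (l * m) ^ 2 * dw τ a p := by
  have := Fw_sc (ex τ a) (p 0) l m ![p 1, p 2] ![p 3, p 4]
  exact this

theorem cont_dw {K L : Type} [Field K] [NontriviallyNormedField L] (σ : K →+* L)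
    (a : Fin 3 → Fin 3 → K) : Continuous fun z : Fin 5 → L => dw σ a z := by
  simp only [dw, Fw, cw, ax, q2, ex, Matrix.cons_val_zero, Matrix.cons_val_one]
  fun_prop

/-- **PRJ** -/
theorem prj : S_PRJ := by
  intro hTAN hZAR K _ _ a b hg
  classical
  set TE : Bool → Bool → Set (K × K × K) := fun e₁ e₂ =>
    {z : K × K × K | FF (chA e₁ e₂ a) (chA e₁ e₂ b) z.1 ![1, z.2.1] ![1, z.2.2] = 0 ∧
      Fw (chA e₁ e₂ a) z.1 ![1, z.2.1] ![1, z.2.2] ≠ 0 ∧
      TFx (chA e₁ e₂ a) (chA e₁ e₂ b) z.1 z.2.1 z.2.2 ∧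
      TFx (tr (chA e₁ e₂ a)) (tr (chA e₁ e₂ b)) z.1 z.2.2 z.2.1} with hTE
  have hTEf : ∀ e₁ e₂, (TE e₁ e₂).Finite := fun e₁ e₂ =>
    hTAN K (chA e₁ e₂ a) (chA e₁ e₂ b) (hg.ch e₁ e₂)
  set T : Set (Fin 5 → K) := ⋃ e : Bool × Bool, (fun z : K × K × K =>
    pt e.1 e.2 1 1 z.1 z.2.1 z.2.2) '' TE e.1 e.2 with hT
  have hTf : T.Finite := Set.finite_iUnion fun e => (hTEf e.1 e.2).image _
  have hTp : ∀ q ∈ T, IsPt q ∧ eval q (eqn a b) = 0 ∧ dw (RingHom.id K) a q ≠ 0 := by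
    intro q hq
    obtain ⟨e, z, hz, rfl⟩ := Set.mem_iUnion.1 hq
    refine ⟨pt_isPt _ _ one_ne_zero one_ne_zero _ _ _, ?_, ?_⟩
    · show eval (pt e.1 e.2 1 1 z.1 z.2.1 z.2.2) (eqn a b) = 0
      rw [eval_eqn, FF_pt, hz.1, mul_zero]
    · show dw (RingHom.id K) a (pt e.1 e.2 1 1 z.1 z.2.1 z.2.2) ≠ 0
      rw [dw_id, Fw_pt]
      exact mul_ne_zero (by norm_num) hz.2.1
  refine ⟨T, hTf, hTp, ?_⟩
  intro L _ _ σ hσ
  -- the good points
  have hgood : ∀ p : Fin 5 → K, (IsPt p ∧ eval p (eqn a b) = 0 ∧ dw (RingHom.id K) a p ≠ 0 ∧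
      ∀ q ∈ T, ∀ l m : K, p ≠ sc l m q) → ∀ f, f ∈ clo σ a b (fun i => σ (p i)) → eqn a b ∣ f := by
    rintro p ⟨hp, h0, hw, hpT⟩ f hf
    obtain ⟨e₁, e₂, l, m, w, t, r, hl, hm, rfl⟩ := cover hp
    refine gp σ a b e₁ e₂ hl hm ?_ hf
    rw [eval_eqn, FF_pt] at h0
    rw [dw_id, Fw_pt] at hw
    have hF : FF (chA e₁ e₂ a) (chA e₁ e₂ b) w ![1, t] ![1, r] = 0 :=
      (mul_eq_zero.1 h0).resolve_left (pow_ne_zero _ (mul_ne_zero hl hm))
    have hFw : Fw (chA e₁ e₂ a) w ![1, t] ![1, r] ≠ 0 := right_ne_zero_of_mul hw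
    refine hZAR K (chA e₁ e₂ a) (chA e₁ e₂ b) (hg.ch e₁ e₂) L σ hσ w t r hF hFw ?_
    rintro ⟨h1, h2⟩
    apply hpT (pt e₁ e₂ 1 1 w t r) (Set.mem_iUnion.2 ⟨(e₁, e₂), (w, t, r), ⟨hF, hFw, h1, h2⟩, rfl⟩) l m
    rw [sc_pt, mul_one, mul_one]
  refine ⟨?_, ?_, ?_⟩
  · intro p hp h0 hw hpT
    ext f
    exact ⟨fun hf => hgood p ⟨hp, h0, hw, hpT⟩ f hf, fun hf => dvd_clo σ a b hf⟩
  · intro x hx h0 hw
    refine tri σ a b hx hTf (fun q hq => ⟨(hTp q hq).1, (hTp q hq).2.1⟩) _ hgood ?_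
    refine ⟨{z | dw σ a z ≠ 0}, (cont_dw σ a).continuousAt.eventually_ne hw, ?_⟩
    rintro p hp hp0 ⟨l, m, hl, hm, hpU⟩
    have hdw : dw (RingHom.id K) a p ≠ 0 := by
      intro h
      apply hpU
      rw [dw_sc, Fw_map, h, map_zero, mul_zero]
    by_cases h : ∃ q ∈ T, ∃ l m : K, p = sc l m q
    · exact Or.inr h
    · push Not at h
      exact Or.inl ⟨hp, hp0, hdw, h⟩
  · rintro ⟨B, hB, hBp⟩
    set T' : Set (Fin 5 → K) := T ∪ {q ∈ B | IsPt q ∧ eval q (eqn a b) = 0} with hT'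
    have hT'f : T'.Finite := hTf.union (hB.subset (Set.sep_subset _ _))
    have hT'p : ∀ q ∈ T', IsPt q ∧ eval q (eqn a b) = 0 := by
      rintro q (hq | hq)
      · exact ⟨(hTp q hq).1, (hTp q hq).2.1⟩
      · exact hq.2
    have htri : ∀ x : Fin 5 → L, IsPt x → clo σ a b x = Set.univ ∨ clo σ a b x = {f | eqn a b ∣ f} ∨
        ∃ q ∈ T', (∃ l m : L, l ≠ 0 ∧ m ≠ 0 ∧ x = sc l m fun i => σ (q i)) ∧
          clo σ a b x = {f | ∀ l m : K, eval (sc l m q) f = 0} := by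
      intro x hx
      refine tri σ a b hx hT'f hT'p _ hgood ⟨Set.univ, Filter.univ_mem, ?_⟩
      rintro p hp hp0 -
      by_cases hdw : dw (RingHom.id K) a p = 0
      · right
        obtain ⟨q, hq, l, m, rfl⟩ := hBp p hp hp0 hdw
        have hl : l ≠ 0 := by
          rintro rfl
          rcases hp.1 with h | h
          · exact h (by show 0 * q 1 = 0; rw [zero_mul])
          · exact h (by show 0 * q 2 = 0; rw [zero_mul])
        have hm : m ≠ 0 := by
          rintro rfl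
          rcases hp.2 with h | h
          · exact h (by show 0 * q 3 = 0; rw [zero_mul])
          · exact h (by show 0 * q 4 = 0; rw [zero_mul])
        refine ⟨q, Or.inr ⟨hq, ?_, ?_⟩, l, m, rfl⟩
        · obtain ⟨h1, h2⟩ := hp
          exact ⟨h1.imp (fun h => right_ne_zero_of_mul h) fun h => right_ne_zero_of_mul h,
            h2.imp (fun h => right_ne_zero_of_mul h) fun h => right_ne_zero_of_mul h⟩
        · rw [eval_eqn_sc] at hp0
          exact (mul_eq_zero.1 hp0).resolve_left (pow_ne_zero _ (mul_ne_zero hl hm))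
      · by_cases h : ∃ q ∈ T, ∃ l m : K, p = sc l m q
        · obtain ⟨q, hq, h⟩ := h
          exact Or.inr ⟨q, Or.inl hq, h⟩
        · push Not at h
          exact Or.inl ⟨hp, hp0, hdw, h⟩
    refine ((Set.finite_singleton (Set.univ : Set (MvPolynomial (Fin 5) K))).union
      ((Set.finite_singleton {f : MvPolynomial (Fin 5) K | eqn a b ∣ f}).union
        (hT'f.image fun q => {f : MvPolynomial (Fin 5) K | ∀ l m : K, eval (sc l m q) f = 0}))).subset ?_
    rintro J ⟨x, hx, -, rfl⟩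
    rcases htri x hx with h | h | ⟨q, hq, -, h⟩
    · exact Or.inl h
    · exact Or.inr (Or.inl h)
    · exact Or.inr (Or.inr ⟨q, hq, h.symm⟩)

end Pool.Agent.H66.TK
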