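import Pool.Agent.H66.TK.Stm

/-! # Project TK, part SCL: scaling of the quartic form -/

set_option autoImplicit false
set_option linter.unusedSimpArgs false

open Pool.Agent.Y720.MZ Pool.Agent.Q35.TT Pool.Agent.Q190.TT
open Pool.Agent.Q224.TT.Loc (bq1 tay0 tay1 tay2 tay3)

namespace Pool.Agent.H66.TK

section
variable {K : Type} [Field K]

/-- the scaled form -/
def sca (a : Fin 5 → K) (κ ξ : K) : Fin 5 → K := fun i => a i * κ ^ (i : ℕ) / ξ ^ 2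

theorem sca_bq (a : Fin 5 → K) (s κ ξ : K) (hκ : κ ≠ 0) (hξ : ξ ≠ 0) :
    bq (sca a κ ξ) ![1, s / κ] = bq a ![1, s] / ξ ^ 2 := by
  rw [bq1, bq1]
  simp only [sca, Fin.val_zero, Fin.val_one, Fin.coe_ofNat_eq_mod]
  norm_num
  field_simp

theorem sca_dc (a : Fin 5 → K) (κ ξ : K) (hξ : ξ ≠ 0) :
    dc (sca a κ ξ 0) (sca a κ ξ 1) (sca a κ ξ 2) (sca a κ ξ 3) (sca a κ ξ 4) =
      dc (a 0) (a 1) (a 2) (a 3) (a 4) * κ ^ 12 / ξ ^ 12 := by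
  simp only [sca, Fin.val_zero, Fin.val_one, Fin.coe_ofNat_eq_mod, dc, dsc]
  norm_num
  field_simp

theorem sca_tay (a : Fin 5 → K) (s κ ξ : K) (hκ : κ ≠ 0) (hξ : ξ ≠ 0) (i : Fin 4) :
    tay (sca a κ ξ) (s / κ) i = tay a s i * κ ^ ((i : ℕ) + 1) / ξ ^ 2 := by
  fin_cases i
  · show tay (sca a κ ξ) (s / κ) 0 = tay a s 0 * κ ^ 1 / ξ ^ 2
    rw [tay0, tay0]
    simp only [sca, Fin.val_zero, Fin.val_one, Fin.coe_ofNat_eq_mod]
    norm_num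
    field_simp
  · show tay (sca a κ ξ) (s / κ) 1 = tay a s 1 * κ ^ 2 / ξ ^ 2
    rw [tay1, tay1]
    simp only [sca, Fin.val_zero, Fin.val_one, Fin.coe_ofNat_eq_mod]
    norm_num
    field_simp
  · show tay (sca a κ ξ) (s / κ) 2 = tay a s 2 * κ ^ 3 / ξ ^ 2
    rw [tay2, tay2]
    simp only [sca, Fin.val_zero, Fin.val_one, Fin.coe_ofNat_eq_mod]
    norm_num
    field_simp
  · show tay (sca a κ ξ) (s / κ) 3 = tay a s 3 * κ ^ 4 / ξ ^ 2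
    rw [tay3, tay3]
    simp [sca]

end

theorem scl (h : S_TRN) : S_SCL := by
  intro K _ _ a s κ ξ n hκ hξ hT
  change TorT (sca a κ ξ) (s / κ) n
  have hg : bq a ![1, s] ≠ 0 := hT.1
  have hξ2 : ξ ^ 2 ≠ 0 := pow_ne_zero 2 hξ
  have hg' : bq (sca a κ ξ) ![1, s / κ] ≠ 0 := by
    rw [sca_bq a s κ ξ hκ hξ]
    exact div_ne_zero hg hξ2
  unfold TorT at hT ⊢
  rw [tor_iff a _ s _ n hg] at hT
  rw [tor_iff (sca a κ ξ) _ (s / κ) _ n hg']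
  obtain ⟨-, -, hdc, hTP⟩ := hT
  refine ⟨hg', sq _, ?_, ?_⟩
  · rw [sca_dc a κ ξ hξ]
    exact div_ne_zero (mul_ne_zero hdc (pow_ne_zero _ hκ)) (pow_ne_zero _ hξ)
  · unfold TP at hTP ⊢
    have hu : ξ ^ 2 / κ ≠ 0 := div_ne_zero hξ2 hκ
    have hd : bq a ![1, s] ^ 6 * dc (a 0) (a 1) (a 2) (a 3) (a 4) ≠ 0 :=
      mul_ne_zero (pow_ne_zero _ hg) hdc
    rw [← dsc_TP a _ s] at hd
    have h1 := h K _ _ _ _ _ (ξ ^ 2 / κ) 0 n hu hd hTP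
    simp only [sca_bq a s κ ξ hκ hξ, sca_tay a s κ ξ hκ hξ]
    obtain ⟨g, hgd⟩ : ∃ g, g = bq a ![1, s] := ⟨_, rfl⟩
    rw [← hgd] at h1 hg ⊢
    obtain ⟨A, hA⟩ : ∃ g, g = tay a s 0 := ⟨_, rfl⟩
    obtain ⟨B, hB⟩ : ∃ g, g = tay a s 1 := ⟨_, rfl⟩
    obtain ⟨C, hC⟩ : ∃ g, g = tay a s 2 := ⟨_, rfl⟩
    obtain ⟨D, hD⟩ : ∃ g, g = tay a s 3 := ⟨_, rfl⟩
    rw [← hA, ← hB, ← hC, ← hD] at h1 ⊢
    have e : ∀ {x1 x2 x3 x4 x5 y1 y2 y3 y4 y5 : K}, x1 = y1 → x2 = y2 → x3 = y3 → x4 = y4 →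
        x5 = y5 → TorP x1 x2 x3 x4 x5 n → TorP y1 y2 y3 y4 y5 n := by
      rintro _ _ _ _ _ _ _ _ _ _ rfl rfl rfl rfl rfl h
      exact h
    refine e ?_ ?_ ?_ ?_ ?_ h1
    · simp only [Fin.val_zero, Fin.val_one, Fin.coe_ofNat_eq_mod]
      norm_num
      field_simp
    · simp only [Fin.val_zero, Fin.val_one, Fin.coe_ofNat_eq_mod]
      norm_num
      field_simp
      try ring
    · simp only [Fin.val_zero, Fin.val_one, Fin.coe_ofNat_eq_mod]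
      norm_num
      field_simp
      try ring
    · simp only [Fin.val_zero, Fin.val_one, Fin.coe_ofNat_eq_mod]
      norm_num
      field_simp
      try ring
    · simp only [Fin.val_zero, Fin.val_one, Fin.coe_ofNat_eq_mod]
      norm_num
      field_simp
      try ring

end Pool.Agent.H66.TK
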