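import Pool.Graph.R_pool_sql_team_seeded_3997aac3.Q35.TT.All1

/-!
# Mazur's question for the K3 surfaces `w³ + A(x, y) w + B(x, y) = 0` over `ℙ¹ × ℙ¹`
(two pencils of plane cubics), statements of the parts (project TK, helper66)

`A` has bidegree (2,2) and `B` has bidegree (3,3). The direction `x` means: the plane cubic in `(w, x)`
with `y` fixed. `R` is the curve where the derivative with respect to `w` vanishes.
-/

set_option autoImplicit false

open Pool.Agent.Y720.MZ MvPolynomial Height AdmissibleAbsValues Pool.Agent.Q35.TT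

namespace Pool.Agent.H66.TK

/-! ### Plane cubics `w³ + α(x) w + β(x) = 0` -/

section ring

variable {R : Type} [CommRing R]

/-- The binary quadratic form with the coefficients `c`. -/
def q2 (c : Fin 3 → R) (x : Fin 2 → R) : R :=
  c 0 * x 0 ^ 2 + c 1 * (x 0 * x 1) + c 2 * x 1 ^ 2

/-- The binary cubic form with the coefficients `c`. -/
def q3 (c : Fin 4 → R) (x : Fin 2 → R) : R :=
  c 0 * x 0 ^ 3 + c 1 * (x 0 ^ 2 * x 1) + c 2 * (x 0 * x 1 ^ 2) + c 3 * x 1 ^ 3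

/-- The ternary cubic form `w³ + α(x) w + β(x)`. -/
def cub (α : Fin 3 → R) (β : Fin 4 → R) (w : R) (x : Fin 2 → R) : R :=
  w ^ 3 + q2 α x * w + q3 β x

/-- The derivative of `cub` with respect to `w`. -/
def cw (α : Fin 3 → R) (w : R) (x : Fin 2 → R) : R := 3 * w ^ 2 + q2 α x

/-- The derivative of `cub` with respect to `x 0`. -/
def c0 (α : Fin 3 → R) (β : Fin 4 → R) (w : R) (x : Fin 2 → R) : R :=
  (2 * α 0 * x 0 + α 1 * x 1) * w + (3 * β 0 * x 0 ^ 2 + 2 * β 1 * (x 0 * x 1) + β 2 * x 1 ^ 2)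

/-- The derivative of `cub` with respect to `x 1`. -/
def c1 (α : Fin 3 → R) (β : Fin 4 → R) (w : R) (x : Fin 2 → R) : R :=
  (α 1 * x 0 + 2 * α 2 * x 1) * w + (β 1 * x 0 ^ 2 + 2 * β 2 * (x 0 * x 1) + 3 * β 3 * x 1 ^ 2)

/-- The quadratic part of `cub (w + u) (x 0, x 1 + v)` in `u`, `v`. -/
def mm (α : Fin 3 → R) (β : Fin 4 → R) (w : R) (x : Fin 2 → R) (u v : R) : R :=
  3 * w * u ^ 2 + (α 1 * x 0 + 2 * α 2 * x 1) * (u * v) + (α 2 * w + β 2 * x 0 + 3 * β 3 * x 1) * v ^ 2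

/-- The cubic part. -/
def nn (α : Fin 3 → R) (β : Fin 4 → R) (u v : R) : R := u ^ 3 + α 2 * (u * v ^ 2) + β 3 * v ^ 3

/-- The quadratic part on the tangent direction (it vanishes at the flexes). -/
def DD (α : Fin 3 → R) (β : Fin 4 → R) (w : R) (x : Fin 2 → R) : R :=
  mm α β w x (-(c1 α β w x)) (cw α w x)

/-- The cubic part on the tangent direction. -/
def NN (α : Fin 3 → R) (β : Fin 4 → R) (w : R) (x : Fin 2 → R) : R :=
  nn α β (-(c1 α β w x)) (cw α w x)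

/-- The quartic form `mm² - 4 (cw u + c1 v) nn` in `u`, `v`: the coefficient of `uⁱ v⁴⁻ⁱ`. The plane
cubic is the double cover branched along it of the pencil of the lines through the point `(w, x)`. -/
def gq (α : Fin 3 → R) (β : Fin 4 → R) (w : R) (x : Fin 2 → R) : Fin 5 → R :=
  ![(α 2 * w + β 2 * x 0 + 3 * β 3 * x 1) ^ 2 - 4 * (c1 α β w x * β 3),
    2 * (α 1 * x 0 + 2 * α 2 * x 1) * (α 2 * w + β 2 * x 0 + 3 * β 3 * x 1) -
      4 * (cw α w x * β 3 + c1 α β w x * α 2),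
    (α 1 * x 0 + 2 * α 2 * x 1) ^ 2 + 2 * (3 * w) * (α 2 * w + β 2 * x 0 + 3 * β 3 * x 1) -
      4 * (cw α w x * α 2),
    2 * (3 * w) * (α 1 * x 0 + 2 * α 2 * x 1) - 4 * c1 α β w x,
    (3 * w) ^ 2 - 4 * cw α w x]

/-! ### The surfaces -/

/-- The coefficients of `A(x, y)`, as a quadratic form in `x`. -/
def ax (a : Fin 3 → Fin 3 → R) (y : Fin 2 → R) : Fin 3 → R := fun i => q2 (a i) y

/-- The coefficients of `B(x, y)`, as a cubic form in `x`. -/
def bx (b : Fin 4 → Fin 4 → R) (y : Fin 2 → R) : Fin 4 → R := fun i => q3 (b i) y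

/-- Exchange of `x` and `y`. -/
def tr {k : ℕ} (a : Fin k → Fin k → R) : Fin k → Fin k → R := fun i j => a j i

/-- `F(w, x, y) = w³ + A(x, y) w + B(x, y)`. -/
def FF (a : Fin 3 → Fin 3 → R) (b : Fin 4 → Fin 4 → R) (w : R) (x y : Fin 2 → R) : R :=
  cub (ax a y) (bx b y) w x

/-- `∂F/∂w`. -/
def Fw (a : Fin 3 → Fin 3 → R) (w : R) (x y : Fin 2 → R) : R := cw (ax a y) w x

/-- The forms `DD`, `NN` for the direction `x`. -/
def Dx (a : Fin 3 → Fin 3 → R) (b : Fin 4 → Fin 4 → R) (w : R) (x y : Fin 2 → R) : R :=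
  DD (ax a y) (bx b y) w x

/-- The forms `DD`, `NN` for the direction `x`. -/
def Nx (a : Fin 3 → Fin 3 → R) (b : Fin 4 → Fin 4 → R) (w : R) (x y : Fin 2 → R) : R :=
  NN (ax a y) (bx b y) w x

theorem FF_tr (a : Fin 3 → Fin 3 → R) (b : Fin 4 → Fin 4 → R) (w : R) (x y : Fin 2 → R) :
    FF (tr a) (tr b) w y x = FF a b w x y := by
  unfold FF cub ax bx tr q2 q3
  ring

theorem Fw_tr (a : Fin 3 → Fin 3 → R) (w : R) (x y : Fin 2 → R) :
    Fw (tr a) w y x = Fw a w x y := by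
  unfold Fw cw ax tr q2
  ring

end ring

/-- The surface over an extension. -/
abbrev ex {K E : Type} [Field K] [Field E] (τ : K →+* E) {k : ℕ} (a : Fin k → Fin k → K) :
    Fin k → Fin k → E := fun i j => τ (a i j)

/-- The surface is smooth. -/
def SmoothS {K : Type} [Field K] (a : Fin 3 → Fin 3 → K) (b : Fin 4 → Fin 4 → K) : Prop :=
  ∀ (w : AlgebraicClosure K) (x y : Fin 2 → AlgebraicClosure K), x ≠ 0 → y ≠ 0 →
    FF (ex (algebraMap K _) a) (ex (algebraMap K _) b) w x y = 0 →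
    Fw (ex (algebraMap K _) a) w x y = 0 →
    c0 (ax (ex (algebraMap K _) a) y) (bx (ex (algebraMap K _) b) y) w x = 0 →
    c1 (ax (ex (algebraMap K _) a) y) (bx (ex (algebraMap K _) b) y) w x = 0 →
    c0 (ax (tr (ex (algebraMap K _) a)) x) (bx (tr (ex (algebraMap K _) b)) x) w y = 0 →
    c1 (ax (tr (ex (algebraMap K _) a)) x) (bx (tr (ex (algebraMap K _) b)) x) w y = 0 → False

/-- No plane cubic in the direction `x` contains a line. -/
def NoLine {K : Type} [Field K] (a : Fin 3 → Fin 3 → K) (b : Fin 4 → Fin 4 → K) : Prop :=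
  ∀ y : Fin 2 → AlgebraicClosure K, y ≠ 0 → ∀ l m : AlgebraicClosure K,
    ∃ x : Fin 2 → AlgebraicClosure K,
      FF (ex (algebraMap K _) a) (ex (algebraMap K _) b) (l * x 0 + m * x 1) x y ≠ 0

/-- The surfaces of the theorem. -/
structure Good {K : Type} [Field K] (a : Fin 3 → Fin 3 → K) (b : Fin 4 → Fin 4 → K) : Prop where
  smooth : SmoothS a b
  line₁ : NoLine a b
  line₂ : NoLine (tr a) (tr b)

/-! ### Torsion points and flexes -/

/-- The point `(w, (1, t))` of the plane cubic is a flex, or the class `H - 3 P` is killed by `n`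
(and the plane cubic is smooth). -/
def TF {K : Type} [Field K] (α : Fin 3 → K) (β : Fin 4 → K) (w t : K) (n : ℕ) : Prop :=
  DD α β w ![1, t] = 0 ∨ TorT (gq α β w ![1, t]) (-(c1 α β w ![1, t]) / cw α w ![1, t]) n

/-- The same for the point `(w, (1, t), (1, r))` of the surface in the direction `x`, for some `n`. -/
def TFx {K : Type} [Field K] (a : Fin 3 → Fin 3 → K) (b : Fin 4 → Fin 4 → K) (w t r : K) : Prop :=
  ∃ n : ℕ, n ≠ 0 ∧ TF (ax a ![1, r]) (bx b ![1, r]) w t n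

/-! ### The parts -/

/-- A system of constants: at least one, and equal to one at almost all nonarchimedean places. -/
structure Cst {K : Type} [Field K] [NumberField K] (C : AbsoluteValue K ℝ → ℝ) : Prop where
  one_le : ∀ v, 1 ≤ C v
  fin : {v : AbsoluteValue K ℝ | v ∈ nonarchAbsVal (K := K) ∧ C v ≠ 1}.Finite

/-- SCL: scaling of the quartic form. -/
def S_SCL : Prop :=
  ∀ (K : Type) [Field K] [CharZero K] (a : Fin 5 → K) (s κ ξ : K) (n : ℕ), κ ≠ 0 → ξ ≠ 0 →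
    TorT a s n → TorT (fun i => a i * κ ^ (i : ℕ) / ξ ^ 2) (s / κ) n

/-- LIN: the local inequalities for a point with torsion, on a plane cubic with coefficients bounded
by `A`. -/
def S_LIN : Prop :=
  ∀ (K : Type) [Field K] [NumberField K] (A : AbsoluteValue K ℝ → ℝ), Cst A →
    ∃ C : AbsoluteValue K ℝ → ℝ, Cst C ∧
      ∀ (α : Fin 3 → K) (β : Fin 4 → K) (w t : K) (n : ℕ), n ≠ 0 → cub α β w ![1, t] = 0 →
        cw α w ![1, t] ≠ 0 →
        TorT (gq α β w ![1, t]) (-(c1 α β w ![1, t]) / cw α w ![1, t]) n →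
        (∀ v ∈ archAbsVal (K := K), (∀ i, v (α i) ≤ A v) → (∀ i, v (β i) ≤ A v) →
          v (NN α β w ![1, t]) ≤ C v * (n : ℝ) ^ 2 * v (DD α β w ![1, t]) * max 1 (v t)) ∧
        ∀ v ∈ nonarchAbsVal (K := K), (∀ i, v (α i) ≤ A v) → (∀ i, v (β i) ≤ A v) →
          v (NN α β w ![1, t]) ≤ C v * v (DD α β w ![1, t]) * max 1 (v t)

/-- LIS: the same on the surface, without normalisation. -/
def S_LIS : Prop :=
  ∀ (K : Type) [Field K] [NumberField K] (a : Fin 3 → Fin 3 → K) (b : Fin 4 → Fin 4 → K),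
    ∃ C : AbsoluteValue K ℝ → ℝ, Cst C ∧
      ∀ (w t r : K) (n : ℕ), n ≠ 0 → FF a b w ![1, t] ![1, r] = 0 → Fw a w ![1, t] ![1, r] ≠ 0 →
        TorT (gq (ax a ![1, r]) (bx b ![1, r]) w ![1, t])
          (-(c1 (ax a ![1, r]) (bx b ![1, r]) w ![1, t]) / cw (ax a ![1, r]) w ![1, t]) n →
        (∀ v ∈ archAbsVal (K := K), v (Nx a b w ![1, t] ![1, r]) ≤
          C v * (n : ℝ) ^ 2 * v (Dx a b w ![1, t] ![1, r]) * max 1 (v t) * max 1 (v r) ^ 2) ∧
        ∀ v ∈ nonarchAbsVal (K := K), v (Nx a b w ![1, t] ![1, r]) ≤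
          C v * v (Dx a b w ![1, t] ![1, r]) * max 1 (v t) * max 1 (v r) ^ 2

/-- NUL: the Nullstellensatz with absolute values. -/
def S_NUL : Prop :=
  ∀ (K : Type) [Field K] [NumberField K] (τ ι : Type) [Finite τ] [Finite ι]
    (f : ι → MvPolynomial τ K) (g : MvPolynomial τ K),
    (∀ z : τ → AlgebraicClosure K, (∀ i, aeval z (f i) = 0) → aeval z g = 0) →
    ∀ R : AbsoluteValue K ℝ → ℝ, Cst R →
      ∃ (E : ℕ) (C : AbsoluteValue K ℝ → ℝ), Cst C ∧
        ∀ v : AbsoluteValue K ℝ, (v ∈ archAbsVal (K := K) ∨ v ∈ nonarchAbsVal (K := K)) →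
          ∀ (z : τ → K) (B : ℝ), (∀ j, v (z j) ≤ R v) → (∀ i, v (eval z (f i)) ≤ B) →
            v (eval z g) ^ E ≤ C v * B

/-- The vector `x` is normalised for `v`. -/
def Nm {K : Type} [Field K] (v : AbsoluteValue K ℝ) (x : Fin 2 → K) : Prop :=
  (∀ i, v (x i) ≤ 1) ∧ ∃ i, v (x i) = 1

/-- BDW: the coordinate `w` is bounded at the normalised points. -/
def S_BDW : Prop :=
  ∀ (K : Type) [Field K] [NumberField K] (a : Fin 3 → Fin 3 → K) (b : Fin 4 → Fin 4 → K),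
    ∃ C : AbsoluteValue K ℝ → ℝ, Cst C ∧
      ∀ v : AbsoluteValue K ℝ, (v ∈ archAbsVal (K := K) ∨ v ∈ nonarchAbsVal (K := K)) →
        ∀ (w : K) (x y : Fin 2 → K), (∀ i, v (x i) ≤ 1) → (∀ i, v (y i) ≤ 1) →
          FF a b w x y = 0 → v w ≤ C v

/-- GEO: the forms `DD` and `NN` are not both small, in the part `|t| ≤ 1` of the surface. -/
def S_GEO : Prop :=
  ∀ (K : Type) [Field K] [NumberField K] (a : Fin 3 → Fin 3 → K) (b : Fin 4 → Fin 4 → K),
    NoLine a b → ∃ C : AbsoluteValue K ℝ → ℝ, Cst C ∧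
      ∀ v : AbsoluteValue K ℝ, (v ∈ archAbsVal (K := K) ∨ v ∈ nonarchAbsVal (K := K)) →
        ∀ (w t : K) (y : Fin 2 → K), v t ≤ 1 → Nm v y → FF a b w ![1, t] y = 0 →
          max (v (cw (ax a y) w ![1, t])) (v (c1 (ax a y) (bx b y) w ![1, t])) ^ 3 ≤
            C v * max (v (Dx a b w ![1, t] y)) (v (Nx a b w ![1, t] y))

/-- SMO: the partial derivatives are not all small. -/
def S_SMO : Prop :=
  ∀ (K : Type) [Field K] [NumberField K] (a : Fin 3 → Fin 3 → K) (b : Fin 4 → Fin 4 → K),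
    SmoothS a b → ∃ C : AbsoluteValue K ℝ → ℝ, Cst C ∧
      ∀ v : AbsoluteValue K ℝ, (v ∈ archAbsVal (K := K) ∨ v ∈ nonarchAbsVal (K := K)) →
        ∀ (w : K) (x y : Fin 2 → K) (B : ℝ), Nm v x → Nm v y → FF a b w x y = 0 →
          v (Fw a w x y) ≤ B → v (c0 (ax a y) (bx b y) w x) ≤ B →
          v (c1 (ax a y) (bx b y) w x) ≤ B → v (c0 (ax (tr a) x) (bx (tr b) x) w y) ≤ B →
          v (c1 (ax (tr a) x) (bx (tr b) x) w y) ≤ B → 1 ≤ C v * B

/-- The size of the gradient in the direction `x`. -/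
noncomputable def Gm {K : Type} [Field K] (v : AbsoluteValue K ℝ) (a : Fin 3 → Fin 3 → K)
    (b : Fin 4 → Fin 4 → K) (w t r : K) : ℝ :=
  max (v (Fw a w ![1, t] ![1, r]) * max 1 (v r))
    (max (v (c0 (ax a ![1, r]) (bx b ![1, r]) w ![1, t]))
      (v (c1 (ax a ![1, r]) (bx b ![1, r]) w ![1, t])))

/-- STR: a lower bound for a nonzero number at the points with torsion. -/
def S_STR : Prop :=
  ∀ (K : Type) [Field K] [NumberField K] (a : Fin 3 → Fin 3 → K) (b : Fin 4 → Fin 4 → K),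
    NoLine a b → ∃ C : AbsoluteValue K ℝ → ℝ, Cst C ∧
      ∀ (w t r : K) (n : ℕ), n ≠ 0 → FF a b w ![1, t] ![1, r] = 0 →
        Fw a w ![1, t] ![1, r] ≠ 0 → TF (ax a ![1, r]) (bx b ![1, r]) w t n →
        ∃ δ : K, δ ≠ 0 ∧
          (∀ v ∈ archAbsVal (K := K), Gm v a b w t r ^ 3 ≤
            C v * (n : ℝ) ^ 2 * v δ * max 1 (v t) ^ 4 * max 1 (v r) ^ 2) ∧
          ∀ v ∈ nonarchAbsVal (K := K), Gm v a b w t r ^ 3 ≤
            C v * v δ * max 1 (v t) ^ 4 * max 1 (v r) ^ 2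

/-- ORD: the order of the torsion is less than any power of the height. -/
def S_ORD : Prop :=
  ∀ (K : Type) [Field K] [NumberField K] (a : Fin 3 → Fin 3 → K) (b : Fin 4 → Fin 4 → K) (M : ℕ),
    ∃ C : ℝ, 0 < C ∧ ∀ (w t r : K) (n : ℕ), n ≠ 0 → FF a b w ![1, t] ![1, r] = 0 →
      Fw a w ![1, t] ![1, r] ≠ 0 → TF (ax a ![1, r]) (bx b ![1, r]) w t n →
      ∃ n' : ℕ, n' ≠ 0 ∧ TF (ax a ![1, r]) (bx b ![1, r]) w t n' ∧
        (n' : ℝ) ^ M ≤ C * (mulHeight₁ t * mulHeight₁ r)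

/-- PRD: the product formula. -/
def S_PRD : Prop :=
  ∀ (K : Type) [Field K] [NumberField K] (C : AbsoluteValue K ℝ → ℝ), Cst C →
    ∃ D : ℝ, 0 < D ∧ ∀ (e u t r : K) (a b : ℕ) (N : ℝ), e ≠ 0 → u ≠ 0 → 1 ≤ N →
      (∀ v ∈ archAbsVal (K := K), v e * max 1 (v t) ^ a * max 1 (v r) ^ b ≤ C v * N * v u) →
      (∀ v ∈ nonarchAbsVal (K := K), v e * max 1 (v t) ^ a * max 1 (v r) ^ b ≤ C v * v u) →
      mulHeight₁ t ^ a * mulHeight₁ r ^ b ≤ D * N ^ totalWeight K

/-- TAN: only finitely many points off `R` have torsion in both directions. -/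
def S_TAN : Prop :=
  ∀ (K : Type) [Field K] [NumberField K] (a : Fin 3 → Fin 3 → K) (b : Fin 4 → Fin 4 → K),
    Good a b → {z : K × K × K | FF a b z.1 ![1, z.2.1] ![1, z.2.2] = 0 ∧
      Fw a z.1 ![1, z.2.1] ![1, z.2.2] ≠ 0 ∧ TFx a b z.1 z.2.1 z.2.2 ∧
      TFx (tr a) (tr b) z.1 z.2.2 z.2.1}.Finite

/-- TBN: on a plane cubic in the direction `x`, only finitely many points off `R` have torsion in the
direction `y`. -/
def S_TBN : Prop :=
  ∀ (K : Type) [Field K] [NumberField K] (a : Fin 3 → Fin 3 → K) (b : Fin 4 → Fin 4 → K),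
    NoLine (tr a) (tr b) → ∀ r : K, {z : K × K | FF a b z.1 ![1, z.2] ![1, r] = 0 ∧
      Fw a z.1 ![1, z.2] ![1, r] ≠ 0 ∧ TFx (tr a) (tr b) z.1 r z.2}.Finite

/-- MOV: rational points accumulate at the points without torsion. -/
def S_MOV : Prop :=
  ∀ (K : Type) [Field K] [NumberField K] (L : Type) [NontriviallyNormedField L] [CompleteSpace L]
    (σ : K →+* L), DenseRange σ → ∀ (α : Fin 3 → K) (β : Fin 4 → K) (w t : K),
    cub α β w ![1, t] = 0 → cw α w ![1, t] ≠ 0 → (¬ ∃ n : ℕ, n ≠ 0 ∧ TF α β w t n) →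
    ∀ ε : ℝ, 0 < ε → {t' : K | ‖σ t' - σ t‖ < ε ∧ ∃ w' : K, ‖σ w' - σ w‖ < ε ∧
      cub α β w' ![1, t'] = 0}.Infinite

/-- IRR: a polynomial of degree at most two in `w` which vanishes at infinitely many points of a plane
cubic without lines is zero. -/
def S_IRR : Prop :=
  ∀ (K : Type) [Field K] [CharZero K] (a : Fin 3 → Fin 3 → K) (b : Fin 4 → Fin 4 → K),
    NoLine a b → ∀ (r : K) (g : Fin 3 → Polynomial K),
      {t : K | ∃ w : K, FF a b w ![1, t] ![1, r] = 0 ∧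
        (g 0).eval t + (g 1).eval t * w + (g 2).eval t * w ^ 2 = 0}.Infinite → g = 0

/-- The `K`-points close to `(w, t, r)` do not lie on a surface `g₀ + g₁ w + g₂ w² = 0`. -/
def DenseAt {K L : Type} [Field K] [NontriviallyNormedField L] (σ : K →+* L)
    (a : Fin 3 → Fin 3 → K) (b : Fin 4 → Fin 4 → K) (w t r : K) : Prop :=
  ∀ ε : ℝ, 0 < ε → ∀ g : Fin 3 → MvPolynomial (Fin 2) K,
    (∀ w' t' r' : K, FF a b w' ![1, t'] ![1, r'] = 0 → ‖σ w' - σ w‖ < ε → ‖σ t' - σ t‖ < ε →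
      ‖σ r' - σ r‖ < ε →
      eval ![t', r'] (g 0) + eval ![t', r'] (g 1) * w' + eval ![t', r'] (g 2) * w' ^ 2 = 0) → g = 0

/-- ZAR: the rational points are Zariski dense near the points off `R` without torsion in one of the
directions. -/
def S_ZAR : Prop :=
  ∀ (K : Type) [Field K] [NumberField K] (a : Fin 3 → Fin 3 → K) (b : Fin 4 → Fin 4 → K),
    Good a b → ∀ (L : Type) [NontriviallyNormedField L] [CompleteSpace L] (σ : K →+* L),
      DenseRange σ → ∀ w t r : K, FF a b w ![1, t] ![1, r] = 0 → Fw a w ![1, t] ![1, r] ≠ 0 →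
        ¬ (TFx a b w t r ∧ TFx (tr a) (tr b) w r t) → DenseAt σ a b w t r

/-! ### The projective surface -/

/-- The equation `F` in the variables `w, x₀, x₁, y₀, y₁`. -/
noncomputable def eqn {K : Type} [Field K] (a : Fin 3 → Fin 3 → K) (b : Fin 4 → Fin 4 → K) :
    MvPolynomial (Fin 5) K :=
  FF (fun i j => C (a i j)) (fun i j => C (b i j)) (X 0) ![X 1, X 2] ![X 3, X 4]

/-- Coordinates of a point. -/
def IsPt {E : Type} [Zero E] (p : Fin 5 → E) : Prop :=
  (p 1 ≠ 0 ∨ p 2 ≠ 0) ∧ (p 3 ≠ 0 ∨ p 4 ≠ 0)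

/-- Other coordinates of the same point. -/
def sc {E : Type} [Mul E] (l m : E) (p : Fin 5 → E) : Fin 5 → E :=
  ![l * m * p 0, l * p 1, l * p 2, m * p 3, m * p 4]

/-- The derivative of `F` with respect to `w` at `p`. -/
def dw {K E : Type} [Field K] [Field E] (τ : K →+* E) (a : Fin 3 → Fin 3 → K) (p : Fin 5 → E) : E :=
  Fw (ex τ a) (p 0) ![p 1, p 2] ![p 3, p 4]

/-- The ideal of the local Zariski closure of the rational points at `x`. -/
def clo {K L : Type} [Field K] [NontriviallyNormedField L] (σ : K →+* L) (a : Fin 3 → Fin 3 → K)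
    (b : Fin 4 → Fin 4 → K) (x : Fin 5 → L) : Set (MvPolynomial (Fin 5) K) :=
  {f | ∃ U ∈ nhds x, ∀ p : Fin 5 → K, IsPt p → eval p (eqn a b) = 0 →
    (∃ l m : L, l ≠ 0 ∧ m ≠ 0 ∧ sc l m (fun i => σ (p i)) ∈ U) →
    ∀ l m : K, eval (sc l m p) f = 0}

/-- MZP: the theorem. -/
def S_MZP : Prop :=
  ∀ (K : Type) [Field K] [NumberField K] (a : Fin 3 → Fin 3 → K) (b : Fin 4 → Fin 4 → K),
    Good a b → ∃ T : Set (Fin 5 → K), T.Finite ∧
      (∀ q ∈ T, IsPt q ∧ eval q (eqn a b) = 0 ∧ dw (RingHom.id K) a q ≠ 0) ∧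
      ∀ (L : Type) [NontriviallyNormedField L] [CompleteSpace L] (σ : K →+* L), DenseRange σ →
        -- (1) the local closures at the rational points
        (∀ p : Fin 5 → K, IsPt p → eval p (eqn a b) = 0 → dw (RingHom.id K) a p ≠ 0 →
          (∀ q ∈ T, ∀ l m : K, p ≠ sc l m q) →
          clo σ a b (fun i => σ (p i)) = {f | eqn a b ∣ f}) ∧
        -- (2) off the ramification curve
        (∀ x : Fin 5 → L, IsPt x → eval₂ σ x (eqn a b) = 0 → dw σ a x ≠ 0 →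
          clo σ a b x = Set.univ ∨ clo σ a b x = {f | eqn a b ∣ f} ∨
          ∃ q ∈ T, (∃ l m : L, l ≠ 0 ∧ m ≠ 0 ∧ x = sc l m fun i => σ (q i)) ∧
            clo σ a b x = {f | ∀ l m : K, eval (sc l m q) f = 0}) ∧
        -- (3) everywhere, if the ramification curve has finitely many rational points
        ((∃ B : Set (Fin 5 → K), B.Finite ∧ ∀ p : Fin 5 → K, IsPt p → eval p (eqn a b) = 0 →
            dw (RingHom.id K) a p = 0 → ∃ q ∈ B, ∃ l m : K, p = sc l m q) →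
          {J | ∃ x : Fin 5 → L, IsPt x ∧ eval₂ σ x (eqn a b) = 0 ∧ J = clo σ a b x}.Finite)

/-- PRJ: the theorem follows from the statements for the affine surfaces. -/
def S_PRJ : Prop := S_TAN → S_ZAR → S_MZP

end Pool.Agent.H66.TK
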